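import Pool.Agent.Hhelper82.Gf.Digits

set_option autoImplicit false

/-!
# Coalescence of the difference chain
-/

namespace Pool.Agent.Hhelper82.Gf

/-! ### From real steps to words -/

lemma exists_digit (A B : ℤ) (c : ℕ) (hc : 0 < c) (z z' z'' : ℤ)
    (h : |A * z + B * z' + c * z''| < c) : ∃ d : Fin c, st A B c (d : ℕ) (z, z') = (z', z'') := by
  have hc' : (0 : ℤ) < c := by exact_mod_cast hc
  rw [abs_lt] at h
  obtain ⟨t, ht⟩ : ∃ t, t = A * z + B * z' + c * z'' := ⟨_, rfl⟩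
  rw [← ht] at h
  rcases le_or_gt 0 t with h0 | h0
  · refine ⟨⟨0, hc⟩, ?_⟩
    simp only [st, Nat.cast_zero, add_zero, Prod.mk.injEq, true_and]
    have : A * z + B * z' = t + c * (-z'') := by linarith
    rw [this, Int.add_mul_ediv_left _ _ hc'.ne', Int.ediv_eq_zero_of_lt h0 h.2]
    ring
  · refine ⟨⟨(-t).toNat, by omega⟩, ?_⟩
    simp only [st, Prod.mk.injEq, true_and]
    have : A * z + B * z' + ((-t).toNat : ℤ) = 0 + c * (-z'') := by
      rw [Int.toNat_of_nonneg (by omega)]; linarith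
    rw [this, Int.add_mul_ediv_left _ _ hc'.ne']
    simp

/-- `s` can be driven to zero by a word of length `L`. -/
def Zr (A B : ℤ) (c : ℕ) (L : ℕ) (s : ℤ × ℤ) : Prop := ∃ w : Fin L → Fin c, run A B c L w s = 0

lemma Zr.cons {A B : ℤ} {c : ℕ} {L : ℕ} {s : ℤ × ℤ} (d : Fin c)
    (h : Zr A B c L (st A B c (d : ℕ) s)) : Zr A B c (L + 1) s := by
  obtain ⟨w, hw⟩ := h
  exact ⟨Fin.cons d w, by simpa [run] using hw⟩

lemma Zr.zero (A B : ℤ) (c : ℕ) : Zr A B c 0 0 := ⟨Fin.elim0, rfl⟩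

lemma Zr.inv {A B : ℤ} {c : ℕ} {L : ℕ} {s : ℤ × ℤ} (h : Zr A B c (L + 1) s) :
    ∃ d : Fin c, Zr A B c L (st A B c (d : ℕ) s) := by
  obtain ⟨w, hw⟩ := h
  exact ⟨w 0, Fin.tail w, hw⟩

lemma st_zero (A B : ℤ) (c : ℕ) (d : Fin c) : st A B c (d : ℕ) 0 = 0 := by
  ext
  · simp [st]
  · simp only [st, Prod.fst_zero, Prod.snd_zero, mul_zero, add_zero, zero_add]
    rw [Int.ediv_eq_zero_of_lt (by positivity) (by exact_mod_cast d.2)]
    simp

lemma Zr.succ {A B : ℤ} {c : ℕ} [NeZero c] {L : ℕ} {s : ℤ × ℤ} (h : Zr A B c L s) :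
    Zr A B c (L + 1) s := by
  induction L generalizing s with
  | zero =>
    obtain ⟨w, hw⟩ := h
    have hs : s = 0 := hw
    subst hs
    refine Zr.cons (0 : Fin c) ?_
    rw [st_zero]
    exact Zr.zero A B c
  | succ L ih =>
    obtain ⟨d, hd⟩ := h.inv
    exact Zr.cons d (ih hd)

lemma Zr.mono {A B : ℤ} {c : ℕ} [NeZero c] {L L' : ℕ} (hL : L ≤ L') {s : ℤ × ℤ}
    (h : Zr A B c L s) : Zr A B c L' s := by
  induction L', hL using Nat.le_induction with
  | base => exact h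
  | succ n _ ih => exact ih.succ

lemma abs_cast_lt {A B z z' z'' : ℤ} {c : ℕ} (hc : 0 < c) {τ r : ℝ}
    (hτ : 2 * τ * c = -B) (hr : r * c = A) (h : |r * z - 2 * τ * z' + z''| < 1) :
    |A * z + B * z' + c * z''| < c := by
  have hcr : (0 : ℝ) < c := by exact_mod_cast hc
  have h2 : |(c : ℝ) * (r * z - 2 * τ * z' + z'')| < c := by
    rw [abs_mul, abs_of_pos hcr]
    nlinarith
  have h3 : (c : ℝ) * (r * z - 2 * τ * z' + z'') = ((A * z + B * z' + c * z'' : ℤ) : ℝ) := by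
    push_cast
    rw [← hr]
    have : (B : ℝ) = -(2 * τ * c) := by linarith
    rw [this]
    ring
  rw [h3] at h2
  have h4 : ((|A * z + B * z' + c * z''| : ℤ) : ℝ) < (c : ℤ) := by
    push_cast at h2 ⊢
    exact h2
  exact_mod_cast h4

theorem exists_word (A B : ℤ) (c : ℕ) (hA : 0 < A) (hAc : A < c) (hd : B ^ 2 < 4 * A * c)
    (s : ℤ × ℤ) : ∃ L, Zr A B c L s := by
  have hc : 0 < c := by have := hA.trans hAc; exact_mod_cast this
  have hcr : (0 : ℝ) < c := by exact_mod_cast hc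
  rcases le_or_gt B 0 with hB | hB
  · have h := reach_nonneg A (-B) c hA hAc (by omega) (by linarith [neg_sq B]) s.1 s.2
    have hτ : 2 * (((-B : ℤ) : ℝ) / (2 * ((c : ℤ) : ℝ))) * c = -B := by push_cast; field_simp
    have hr : ((A : ℝ) / ((c : ℤ) : ℝ)) * c = A := by push_cast; field_simp
    have key : ∀ z z' : ℤ, R0 (((-B : ℤ) : ℝ) / (2 * ((c : ℤ) : ℝ))) ((A : ℝ) / ((c : ℤ) : ℝ)) z z' →
        ∃ L, Zr A B c L (z, z') := by
      intro z z' h
      induction h with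
      | zero => exact ⟨0, Zr.zero A B c⟩
      | step z z' z'' h _ ih =>
        obtain ⟨L, hL⟩ := ih
        obtain ⟨d, hd⟩ := exists_digit A B c hc z z' z'' (abs_cast_lt hc hτ hr h)
        refine ⟨L + 1, Zr.cons d ?_⟩
        rw [hd]; exact hL
    exact key _ _ h
  · have h := reach_nonneg A B c hA hAc hB.le hd s.1 (-s.2)
    have hτ : 2 * (-((B : ℝ) / (2 * ((c : ℤ) : ℝ)))) * c = -B := by push_cast; field_simp
    have hr : ((A : ℝ) / ((c : ℤ) : ℝ)) * c = A := by push_cast; field_simp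
    have key : ∀ z z' : ℤ, R0 ((B : ℝ) / (2 * ((c : ℤ) : ℝ))) ((A : ℝ) / ((c : ℤ) : ℝ)) z z' →
        (∃ L, Zr A B c L (z, -z')) ∧ (∃ L, Zr A B c L (-z, z')) := by
      intro z z' h
      induction h with
      | zero =>
        constructor
        · refine ⟨0, ?_⟩; rw [neg_zero]; exact Zr.zero A B c
        · refine ⟨0, ?_⟩; rw [neg_zero]; exact Zr.zero A B c
      | step z z' z'' h _ ih =>
        obtain ⟨⟨L1, hL1⟩, ⟨L2, hL2⟩⟩ := ih
        constructor
        · obtain ⟨d, hd⟩ := exists_digit A B c hc z (-z') z'' (abs_cast_lt hc hτ hr (by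
            push_cast
            rw [show (A : ℝ) / (c : ℝ) * (z : ℝ) - 2 * -((B : ℝ) / (2 * (c : ℝ))) * -(z' : ℝ) + z''
              = (A : ℝ) / ((c : ℤ) : ℝ) * z - 2 * ((B : ℝ) / (2 * ((c : ℤ) : ℝ))) * z' + z'' by
                push_cast; ring]
            exact h))
          refine ⟨L2 + 1, Zr.cons d ?_⟩
          rw [hd]; exact hL2
        · obtain ⟨d, hd⟩ := exists_digit A B c hc (-z) z' (-z'') (abs_cast_lt hc hτ hr (by
            push_cast
            rw [show (A : ℝ) / (c : ℝ) * -(z : ℝ) - 2 * -((B : ℝ) / (2 * (c : ℝ))) * (z' : ℝ) + -z''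
              = -((A : ℝ) / ((c : ℤ) : ℝ) * z - 2 * ((B : ℝ) / (2 * ((c : ℤ) : ℝ))) * z' + z'') by
                push_cast; ring, abs_neg]
            exact h))
          refine ⟨L1 + 1, Zr.cons d ?_⟩
          rw [hd]; exact hL1
    have := (key _ _ h).1
    rw [neg_neg] at this
    exact this

/-! ### Counting -/

open Classical in
/-- The number of words of length `m` not driving `s` to zero. -/
noncomputable def cntB (A B : ℤ) (c : ℕ) (m : ℕ) (s : ℤ × ℤ) : ℕ :=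
  (Finset.univ.filter (fun w : Fin m → Fin c => run A B c m w s ≠ 0)).card

open Classical in
lemma cntB_succ (A B : ℤ) (c : ℕ) (m : ℕ) (s : ℤ × ℤ) :
    cntB A B c (m + 1) s = ∑ d : Fin c, cntB A B c m (st A B c (d : ℕ) s) := by
  unfold cntB
  rw [Finset.card_eq_sum_card_fiberwise (f := fun w : Fin (m + 1) → Fin c => w 0)
    (t := Finset.univ) (fun _ _ => Finset.mem_coe.mpr (Finset.mem_univ _))]
  apply Finset.sum_congr rfl
  intro d _
  refine Finset.card_bij' (fun w _ => Fin.tail w) (fun w _ => Fin.cons d w) ?hi ?hj ?li ?ri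
  case hi =>
    intro w hw
    simp only [Finset.mem_filter, Finset.mem_univ, true_and] at hw ⊢
    obtain ⟨h1, h2⟩ := hw
    rw [← h2]
    exact h1
  case hj =>
    intro w hw
    simp only [Finset.mem_filter, Finset.mem_univ, true_and] at hw ⊢
    refine ⟨?_, by simp⟩
    simpa [run] using hw
  case li =>
    intro w hw
    simp only [Finset.mem_filter, Finset.mem_univ, true_and] at hw
    rw [← hw.2]
    exact Fin.cons_self_tail w
  case ri =>
    intro w hw
    exact Fin.tail_cons _ _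

lemma cntB_zero (A B : ℤ) (c : ℕ) (m : ℕ) : cntB A B c m 0 = 0 := by
  induction m with
  | zero => simp [cntB, run]
  | succ m ih =>
    rw [cntB_succ]
    apply Finset.sum_eq_zero
    intro d _
    rw [st_zero, ih]

lemma cntB_le (A B : ℤ) (c : ℕ) (m : ℕ) (s : ℤ × ℤ) : cntB A B c m s ≤ c ^ m := by
  unfold cntB
  refine (Finset.card_le_univ _).trans ?_
  simp

/-- The proportion of words of length `m` not driving `s` to zero. -/
noncomputable def rho (A B : ℤ) (c : ℕ) (m : ℕ) (s : ℤ × ℤ) : ℝ := cntB A B c m s / (c : ℝ) ^ m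

lemma rho_nonneg (A B : ℤ) (c : ℕ) (m : ℕ) (s : ℤ × ℤ) : 0 ≤ rho A B c m s := by
  unfold rho; positivity

lemma rho_le_one (A B : ℤ) (c : ℕ) [NeZero c] (m : ℕ) (s : ℤ × ℤ) : rho A B c m s ≤ 1 := by
  unfold rho
  have hc : (0 : ℝ) < c := by exact_mod_cast NeZero.pos c
  rw [div_le_one (by positivity)]
  exact_mod_cast cntB_le A B c m s

lemma rho_succ (A B : ℤ) (c : ℕ) (m : ℕ) (s : ℤ × ℤ) :
    rho A B c (m + 1) s = (c : ℝ)⁻¹ * ∑ d : Fin c, rho A B c m (st A B c (d : ℕ) s) := by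
  unfold rho
  rw [cntB_succ, pow_succ, ← Finset.sum_div]
  push_cast
  rw [div_mul_eq_div_div, div_eq_inv_mul]

lemma rho_le_of_le (A B : ℤ) (c : ℕ) [NeZero c] (K : Finset (ℤ × ℤ))
    (hK : ∀ s ∈ K, ∀ d : Fin c, st A B c (d : ℕ) s ∈ K) (M : ℝ) (m : ℕ)
    (hM : ∀ s ∈ K, rho A B c m s ≤ M) (L : ℕ) : ∀ s ∈ K, rho A B c (m + L) s ≤ M := by
  have hc : (0 : ℝ) < c := by exact_mod_cast NeZero.pos c
  induction L with
  | zero => exact hM
  | succ L ih =>
    intro s hs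
    rw [← add_assoc, rho_succ, inv_mul_le_iff₀ hc]
    calc _ ≤ ∑ _d : Fin c, M := Finset.sum_le_sum fun d _ => ih _ (hK s hs d)
      _ = c * M := by simp

lemma rho_drop (A B : ℤ) (c : ℕ) [NeZero c] (K : Finset (ℤ × ℤ))
    (hK : ∀ s ∈ K, ∀ d : Fin c, st A B c (d : ℕ) s ∈ K) (M : ℝ) (m : ℕ)
    (hM : ∀ s ∈ K, rho A B c m s ≤ M) (L : ℕ) :
    ∀ s ∈ K, Zr A B c L s → rho A B c (m + L) s ≤ (1 - ((c : ℝ) ^ L)⁻¹) * M := by
  have hc : (0 : ℝ) < c := by exact_mod_cast NeZero.pos c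
  induction L with
  | zero =>
    intro s _ hz
    obtain ⟨w, hw⟩ := hz
    have : s = 0 := hw
    subst this
    simp [rho, cntB_zero]
  | succ L ih =>
    intro s hs hz
    obtain ⟨d0, hd0⟩ := hz.inv
    have h1 := ih _ (hK s hs d0) hd0
    rw [← add_assoc, rho_succ, inv_mul_le_iff₀ hc, ← Finset.add_sum_erase _ _ (Finset.mem_univ d0)]
    have h2 : ∑ d ∈ Finset.univ.erase d0, rho A B c (m + L) (st A B c (d : ℕ) s) ≤
        ∑ _d ∈ (Finset.univ : Finset (Fin c)).erase d0, M := Finset.sum_le_sum fun d _ =>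
      rho_le_of_le A B c K hK M m hM L _ (hK s hs d)
    rw [Finset.sum_const, Finset.card_erase_of_mem (Finset.mem_univ _), Finset.card_univ,
      Fintype.card_fin, nsmul_eq_mul, Nat.cast_sub (NeZero.pos c), Nat.cast_one] at h2
    have e : (c : ℝ) * ((1 - ((c : ℝ) ^ (L + 1))⁻¹) * M) =
        (1 - ((c : ℝ) ^ L)⁻¹) * M + ((c : ℝ) - 1) * M := by
      rw [pow_succ]
      field_simp
      ring
    rw [e]
    linarith

theorem rho_decay (A B : ℤ) (c : ℕ) [NeZero c] (hA : 0 < A) (hAc : A < c) (hd : B ^ 2 < 4 * A * c)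
    (K : Finset (ℤ × ℤ)) (hK : ∀ s ∈ K, ∀ d : Fin c, st A B c (d : ℕ) s ∈ K) (ε : ℝ) (hε : 0 < ε) :
    ∃ m, ∀ s ∈ K, rho A B c m s ≤ ε := by
  have hc : (0 : ℝ) < c := by exact_mod_cast NeZero.pos c
  choose Ls hLs using fun s => exists_word A B c hA hAc hd s
  set L := K.sup Ls with hL
  have hZ : ∀ s ∈ K, Zr A B c L s := fun s hs => (hLs s).mono (Finset.le_sup hs)
  set θ : ℝ := 1 - ((c : ℝ) ^ L)⁻¹ with hθ
  have hc1 : (1 : ℝ) ≤ c := by exact_mod_cast NeZero.pos c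
  have hθ0 : 0 ≤ θ := by
    rw [hθ, sub_nonneg]
    exact inv_le_one_of_one_le₀ (one_le_pow₀ hc1)
  have hθ1 : θ < 1 := by
    rw [hθ]
    have : 0 < ((c : ℝ) ^ L)⁻¹ := by positivity
    linarith
  have key : ∀ k : ℕ, ∀ s ∈ K, rho A B c (k * L) s ≤ θ ^ k := by
    intro k
    induction k with
    | zero => intro s _; simpa using rho_le_one A B c _ s
    | succ k ih =>
      intro s hs
      have := rho_drop A B c K hK (θ ^ k) (k * L) ih L s hs (hZ s hs)
      rw [Nat.succ_mul, pow_succ, mul_comm (θ ^ k)]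
      exact this
  obtain ⟨k, hk⟩ := exists_pow_lt_of_lt_one hε hθ1
  exact ⟨k * L, fun s hs => (key k s hs).trans hk.le⟩

end Pool.Agent.Hhelper82.Gf
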