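import Pool.Agent.Hhelper82.Gf.Reach

set_option autoImplicit false

/-!
# The digit map on `ℤ²` and the band system
-/

namespace Pool.Agent.Hhelper82.Gf

/-! ### Surjectivity of the band matrix -/

/-- The band map `z ↦ (A z_k + B z_{k+1} + C z_{k+2})_{k < m}`. -/
def bandMap (A B C : ℤ) (m : ℕ) : (ℕ → ℤ) →ₗ[ℤ] (Fin m → ℤ) where
  toFun z k := A * z k + B * z (k + 1) + C * z (k + 2)
  map_add' x y := by ext k; simp; ring
  map_smul' c x := by ext k; simp; ring

lemma band_range (A B C : ℤ) (hg : ∃ x y z : ℤ, x * A + y * B + z * C = 1) (m : ℕ) :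
    LinearMap.range (bandMap A B C m) = ⊤ := by
  by_contra hne
  obtain ⟨M, hM, hle⟩ := (eq_top_or_exists_le_coatom (LinearMap.range (bandMap A B C m))).resolve_left hne
  have hsimple : IsSimpleModule ℤ ((Fin m → ℤ) ⧸ M) := isSimpleModule_iff_isCoatom.mpr hM
  set Q := (Fin m → ℤ) ⧸ M with hQ
  let φ : (Fin m → ℤ) →ₗ[ℤ] Q := M.mkQ
  let l : ℕ → Q := fun k => if h : k < m then φ (Pi.single ⟨k, h⟩ 1) else 0
  have hφT : ∀ z, φ (bandMap A B C m z) = 0 := by
    intro z
    have : bandMap A B C m z ∈ M := hle ⟨z, rfl⟩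
    exact (Submodule.Quotient.mk_eq_zero M).mpr this
  have hdec : ∀ x : Fin m → ℤ, φ x = ∑ k : Fin m, x k • l k := by
    intro x
    have e : x = ∑ k : Fin m, x k • (Pi.single k 1 : Fin m → ℤ) := by
      ext j
      simp [Finset.sum_apply, Pi.single_apply]
    conv_lhs => rw [e]
    rw [map_sum]
    apply Finset.sum_congr rfl
    intro k _
    rw [map_smul]
    simp [l]
  have hsum : ∀ (f : ℕ → ℤ) (c : ℕ), (∑ k : Fin m, (if (k : ℕ) = c then f k else 0) • l k) =
      f c • l c := by
    intro f c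
    by_cases hc : c < m
    · rw [Finset.sum_eq_single (⟨c, hc⟩ : Fin m)]
      · simp
      · intro b _ hb
        have : (b : ℕ) ≠ c := fun h => hb (Fin.ext h)
        simp [this]
      · simp
    · have : l c = 0 := by simp [l, hc]
      rw [this, smul_zero]
      apply Finset.sum_eq_zero
      intro k _
      have : (k : ℕ) ≠ c := by have := k.2; omega
      simp [this]
  have rel0 : A • l 0 = 0 := by
    have := hφT (Pi.single 0 1)
    rw [hdec] at this
    rw [← this, ← hsum (fun _ => A) 0]
    apply Finset.sum_congr rfl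
    intro k _
    congr 1
    simp only [bandMap, LinearMap.coe_mk, AddHom.coe_mk, Pi.single_apply]
    have h1 : (k : ℕ) + 1 ≠ 0 := by omega
    have h2 : (k : ℕ) + 2 ≠ 0 := by omega
    simp
  have rel1 : A • l 1 + B • l 0 = 0 := by
    have := hφT (Pi.single 1 1)
    rw [hdec] at this
    rw [← this, ← hsum (fun _ => A) 1, ← hsum (fun _ => B) 0, ← Finset.sum_add_distrib]
    apply Finset.sum_congr rfl
    intro k _
    rw [← add_smul]
    congr 1
    simp only [bandMap, LinearMap.coe_mk, AddHom.coe_mk, Pi.single_apply]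
    have h2 : (k : ℕ) + 2 ≠ 1 := by omega
    simp
  have rel2 : ∀ j, A • l (j + 2) + B • l (j + 1) + C • l j = 0 := by
    intro j
    have := hφT (Pi.single (j + 2) 1)
    rw [hdec] at this
    rw [← this, ← hsum (fun _ => A) (j + 2), ← hsum (fun _ => B) (j + 1), ← hsum (fun _ => C) j,
      ← Finset.sum_add_distrib, ← Finset.sum_add_distrib]
    apply Finset.sum_congr rfl
    intro k _
    rw [← add_smul, ← add_smul]
    congr 1
    simp only [bandMap, LinearMap.coe_mk, AddHom.coe_mk, Pi.single_apply]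
    have e1 : ((k : ℕ) + 1 = j + 2) ↔ ((k : ℕ) = j + 1) := by omega
    have e2 : ((k : ℕ) + 2 = j + 2) ↔ ((k : ℕ) = j) := by omega
    simp
  have schur : ∀ a : ℤ, (∀ x : Q, a • x = 0 → x = 0) ∨ (∀ x : Q, a • x = 0) := by
    intro a
    rcases LinearMap.injective_or_eq_zero (a • (LinearMap.id : Q →ₗ[ℤ] Q)) with h | h
    · left
      intro x hx
      apply h
      simpa using hx
    · right
      intro x
      have := congrArg (fun f : Q →ₗ[ℤ] Q => f x) h
      simpa using this
  have hl : ∀ k, l k = 0 := by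
    rcases schur A with hA | hA
    · have l0 := hA _ rel0
      have l1 : l 1 = 0 := by
        rw [l0, smul_zero, add_zero] at rel1
        exact hA _ rel1
      have : ∀ k, l k = 0 ∧ l (k + 1) = 0 := by
        intro k
        induction k with
        | zero => exact ⟨l0, l1⟩
        | succ k ih =>
          refine ⟨ih.2, ?_⟩
          have := rel2 k
          rw [ih.1, ih.2, smul_zero, smul_zero, add_zero, add_zero] at this
          exact hA _ this
      exact fun k => (this k).1
    · rcases schur B with hB | hB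
      · have l0 : l 0 = 0 := by
          rw [hA, zero_add] at rel1
          exact hB _ rel1
        intro k
        induction k with
        | zero => exact l0
        | succ k ih =>
          have := rel2 k
          rw [ih, smul_zero, add_zero, hA, zero_add] at this
          exact hB _ this
      · rcases schur C with hC | hC
        · intro k
          have := rel2 k
          rw [hA, hB, zero_add, zero_add] at this
          exact hC _ this
        · obtain ⟨x, y, z, h1⟩ := hg
          intro k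
          have : ((x * A + y * B + z * C : ℤ)) • l k = 0 := by
            rw [add_smul, add_smul, mul_smul, mul_smul, mul_smul, hA, hB, hC]
            simp
          rw [h1, one_smul] at this
          exact this
  apply hM.1
  rw [eq_top_iff]
  intro x _
  have : φ x = 0 := by
    rw [hdec]
    apply Finset.sum_eq_zero
    intro k _
    rw [hl, smul_zero]
  exact (Submodule.Quotient.mk_eq_zero M).mp this

lemma band (A B C : ℤ) (hg : ∃ x y z : ℤ, x * A + y * B + z * C = 1) (m : ℕ) (d : Fin m → ℤ) :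
    ∃ z : ℕ → ℤ, ∀ k : Fin m, A * z k + B * z (k + 1) + C * z (k + 2) = d k := by
  have : d ∈ LinearMap.range (bandMap A B C m) := by rw [band_range A B C hg m]; trivial
  obtain ⟨z, hz⟩ := this
  exact ⟨z, fun k => congrFun hz k⟩

/-! ### The digit map -/

/-- The digit of `s`. -/
def dg (A B : ℤ) (c : ℕ) (s : ℤ × ℤ) : ℤ := (A * s.1 + B * s.2) % c

/-- The predecessor of `s`. -/
def pr (A B : ℤ) (c : ℕ) (s : ℤ × ℤ) : ℤ × ℤ := (s.2, -((A * s.1 + B * s.2) / c))

/-- The difference chain. -/
def st (A B : ℤ) (c : ℕ) (d : ℤ) (s : ℤ × ℤ) : ℤ × ℤ := (s.2, -((A * s.1 + B * s.2 + d) / c))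

lemma dg_nonneg (A B : ℤ) (c : ℕ) (hc : 0 < c) (s : ℤ × ℤ) : 0 ≤ dg A B c s :=
  Int.emod_nonneg _ (by exact_mod_cast hc.ne')

lemma dg_lt (A B : ℤ) (c : ℕ) (hc : 0 < c) (s : ℤ × ℤ) : dg A B c s < c :=
  Int.emod_lt_of_pos _ (by exact_mod_cast hc)

/-- The digit of `s` as an element of `Fin c`. -/
def dF (A B : ℤ) (c : ℕ) [NeZero c] (s : ℤ × ℤ) : Fin c :=
  ⟨(dg A B c s).toNat, by
    have h1 := dg_nonneg A B c (NeZero.pos c) s
    have h2 := dg_lt A B c (NeZero.pos c) s
    omega⟩

lemma dF_cast (A B : ℤ) (c : ℕ) [NeZero c] (s : ℤ × ℤ) : ((dF A B c s : ℕ) : ℤ) = dg A B c s := by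
  have h1 := dg_nonneg A B c (NeZero.pos c) s
  simp only [dF]
  omega

lemma dF_eq_iff (A B : ℤ) (c : ℕ) [NeZero c] (s t : ℤ × ℤ) :
    dF A B c s = dF A B c t ↔ dg A B c s = dg A B c t := by
  rw [← dF_cast, ← dF_cast]
  constructor
  · intro h; rw [h]
  · intro h
    ext
    exact_mod_cast h

lemma pr_add (A B : ℤ) (c : ℕ) [NeZero c] (v f : ℤ × ℤ) :
    pr A B c (v + f) = pr A B c v + st A B c (dF A B c v : ℕ) f := by
  have hc : (c : ℤ) ≠ 0 := by exact_mod_cast NeZero.ne c
  rw [dF_cast]
  ext
  · simp [pr, st]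
  · simp only [pr, st, dg, Prod.snd_add, Prod.fst_add]
    have h1 := Int.emod_add_mul_ediv (A * v.1 + B * v.2) c
    have h2 : A * (v.1 + f.1) + B * (v.2 + f.2) =
        (A * f.1 + B * f.2 + (A * v.1 + B * v.2) % c) + c * ((A * v.1 + B * v.2) / c) := by
      linarith
    rw [h2, Int.add_mul_ediv_left _ _ hc]
    ring

/-- The digit strings. -/
def digs (A B : ℤ) (c : ℕ) [NeZero c] : (m : ℕ) → ℤ × ℤ → (Fin m → Fin c)
  | 0, _ => Fin.elim0
  | m + 1, v => Fin.cons (dF A B c v) (digs A B c m (pr A B c v))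

lemma digs_apply (A B : ℤ) (c : ℕ) [NeZero c] (m : ℕ) (v : ℤ × ℤ) (j : Fin m) :
    digs A B c m v j = dF A B c ((pr A B c)^[j] v) := by
  induction m generalizing v with
  | zero => exact j.elim0
  | succ m ih =>
    refine Fin.cases ?_ ?_ j
    · simp [digs]
    · intro i
      simp only [digs, Fin.cons_succ, Fin.val_succ, Function.iterate_succ, Function.comp]
      exact ih _ _

/-- Running the difference chain along a word. -/
def run (A B : ℤ) (c : ℕ) : (m : ℕ) → (Fin m → Fin c) → ℤ × ℤ → ℤ × ℤ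
  | 0, _, f => f
  | m + 1, w, f => run A B c m (Fin.tail w) (st A B c (w 0 : ℕ) f)

lemma iter_add (A B : ℤ) (c : ℕ) [NeZero c] (m : ℕ) (v f : ℤ × ℤ) :
    (pr A B c)^[m] (v + f) = (pr A B c)^[m] v + run A B c m (digs A B c m v) f := by
  induction m generalizing v f with
  | zero => simp [run]
  | succ m ih =>
    simp only [Function.iterate_succ, Function.comp, run, digs, Fin.tail_cons, Fin.cons_zero]
    rw [pr_add, ih]

lemma digs_shift (A B : ℤ) (c : ℕ) [NeZero c] (m : ℕ) (v v' x : ℤ × ℤ)
    (h : digs A B c m v = digs A B c m v') : digs A B c m (v - v' + x) = digs A B c m x := by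
  have hc : (c : ℤ) ≠ 0 := by exact_mod_cast NeZero.ne c
  induction m generalizing v v' x with
  | zero => ext j; exact j.elim0
  | succ m ih =>
    simp only [digs] at h ⊢
    rw [Fin.cons_inj] at h
    obtain ⟨h1, h2⟩ := h
    rw [dF_eq_iff] at h1
    have e1 := Int.emod_add_mul_ediv (A * v.1 + B * v.2) c
    have e2 := Int.emod_add_mul_ediv (A * v'.1 + B * v'.2) c
    simp only [dg] at h1
    have e3 : A * (v - v' + x).1 + B * (v - v' + x).2 =
        (A * x.1 + B * x.2) + c * ((A * v.1 + B * v.2) / c - (A * v'.1 + B * v'.2) / c) := by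
      simp only [Prod.fst_add, Prod.snd_add, Prod.fst_sub, Prod.snd_sub]
      rw [h1] at e1
      linarith
    rw [Fin.cons_inj]
    constructor
    · rw [dF_eq_iff]
      simp only [dg]
      rw [e3, Int.add_mul_emod_self_left]
    · have : pr A B c (v - v' + x) = pr A B c v - pr A B c v' + pr A B c x := by
        ext
        · simp [pr]
        · simp only [pr, Prod.snd_add, Prod.snd_sub]
          have e4 : A * (v - v' + x).1 + B * (v.2 - v'.2 + x.2) =
            A * (v - v' + x).1 + B * (v - v' + x).2 := by simp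
          rw [e4, e3, Int.add_mul_ediv_left _ _ hc]
          ring
      rw [this]
      exact ih _ _ _ h2

lemma digs_periodic (A B : ℤ) (c : ℕ) [NeZero c] (m : ℕ) (k x : ℤ × ℤ) :
    digs A B c m (((c ^ m : ℕ) : ℤ) • k + x) = digs A B c m x := by
  have hc : (c : ℤ) ≠ 0 := by exact_mod_cast NeZero.ne c
  induction m generalizing k x with
  | zero => ext j; exact j.elim0
  | succ m ih =>
    simp only [digs]
    have e3 : A * (((c ^ (m + 1) : ℕ) : ℤ) • k + x).1 + B * (((c ^ (m + 1) : ℕ) : ℤ) • k + x).2 =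
        (A * x.1 + B * x.2) + c * (((c ^ m : ℕ) : ℤ) * (A * k.1 + B * k.2)) := by
      simp only [Prod.fst_add, Prod.snd_add, Prod.smul_fst, Prod.smul_snd, smul_eq_mul]
      push_cast
      ring
    rw [Fin.cons_inj]
    constructor
    · rw [dF_eq_iff]
      simp only [dg]
      rw [e3, Int.add_mul_emod_self_left]
    · have : pr A B c (((c ^ (m + 1) : ℕ) : ℤ) • k + x) =
          ((c ^ m : ℕ) : ℤ) • ((c * k.2, -(A * k.1 + B * k.2)) : ℤ × ℤ) + pr A B c x := by
        ext
        · simp only [pr, Prod.snd_add, Prod.smul_snd, smul_eq_mul, Prod.smul_mk, Prod.fst_add]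
          push_cast
          ring
        · simp only [pr, Prod.snd_add, Prod.smul_mk, smul_eq_mul, Prod.fst_add, Prod.smul_fst,
            Prod.smul_snd]
          simp only [Prod.fst_add, Prod.snd_add, Prod.smul_fst, Prod.smul_snd, smul_eq_mul] at e3
          rw [e3, Int.add_mul_ediv_left _ _ hc]
          ring
      rw [this]
      exact ih _ _

lemma digs_surj (A B : ℤ) (c : ℕ) [NeZero c] (hg : ∃ x y z : ℤ, x * A + y * B + z * c = 1)
    (m : ℕ) (w : Fin m → Fin c) : ∃ v, digs A B c m v = w := by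
  have hc : (c : ℤ) ≠ 0 := by exact_mod_cast NeZero.ne c
  have hc0 : (0 : ℤ) < c := by exact_mod_cast NeZero.pos c
  obtain ⟨z, hz⟩ := band A B c hg m (fun k => ((w k : ℕ) : ℤ))
  have key : ∀ j, j ≤ m → (pr A B c)^[j] (z 0, z 1) = (z j, z (j + 1)) := by
    intro j
    induction j with
    | zero => intro _; rfl
    | succ j ih =>
      intro hj
      rw [Function.iterate_succ_apply', ih (by omega)]
      have := hz ⟨j, by omega⟩
      simp only at this
      have h2 : A * z j + B * z (j + 1) = ((w ⟨j, by omega⟩ : ℕ) : ℤ) + c * (-z (j + 2)) := by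
        linarith
      simp only [pr]
      rw [h2, Int.add_mul_ediv_left _ _ hc, Int.ediv_eq_zero_of_lt (by positivity) (by
        exact_mod_cast (w ⟨j, by omega⟩).2)]
      simp
  refine ⟨(z 0, z 1), ?_⟩
  ext j
  rw [digs_apply, key j (by omega)]
  have := hz j
  have h2 : A * z j + B * z (j + 1) = ((w j : ℕ) : ℤ) + c * (-z (j + 2)) := by
    linarith
  have h3 : dg A B c (z j, z (j + 1)) = ((w j : ℕ) : ℤ) := by
    simp only [dg]
    rw [h2, Int.add_mul_emod_self_left, Int.emod_eq_of_lt (by positivity) (by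
        exact_mod_cast (w j).2)]
  have h4 := dF_cast A B c (z j, z (j + 1))
  rw [h3] at h4
  exact_mod_cast h4

/-! ### Counting residue classes by digit strings -/

/-- The representative of a residue class. -/
def rep (q : ℕ) (g : ZMod q × ZMod q) : ℤ × ℤ := ((g.1.val : ℤ), (g.2.val : ℤ))

/-- The residue class of an integer point. -/
def cls (q : ℕ) (v : ℤ × ℤ) : ZMod q × ZMod q := ((v.1 : ZMod q), (v.2 : ZMod q))

lemma cls_rep (q : ℕ) [NeZero q] (g : ZMod q × ZMod q) : cls q (rep q g) = g := by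
  ext <;> simp [cls, rep]

lemma digs_cls (A B : ℤ) (c : ℕ) [NeZero c] (m : ℕ) (v v' : ℤ × ℤ)
    (h : cls (c ^ m) v = cls (c ^ m) v') : digs A B c m v = digs A B c m v' := by
  simp only [cls, Prod.mk.injEq] at h
  obtain ⟨h1, h2⟩ := h
  rw [ZMod.intCast_eq_intCast_iff_dvd_sub] at h1 h2
  obtain ⟨k1, hk1⟩ := h1
  obtain ⟨k2, hk2⟩ := h2
  have : v' = ((c ^ m : ℕ) : ℤ) • ((k1, k2) : ℤ × ℤ) + v := by
    ext
    · simp only [Prod.smul_mk, smul_eq_mul, Prod.fst_add]; linarith
    · simp only [Prod.smul_mk, smul_eq_mul, Prod.snd_add]; linarith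
  rw [this, digs_periodic]

instance (c : ℕ) [NeZero c] (m : ℕ) : NeZero (c ^ m) := ⟨pow_ne_zero _ (NeZero.ne c)⟩

open Classical in
lemma card_fiber_le (A B : ℤ) (c : ℕ) [NeZero c] (hg : ∃ x y z : ℤ, x * A + y * B + z * c = 1)
    (m : ℕ) (w w' : Fin m → Fin c) :
    (Finset.univ.filter (fun g : ZMod (c ^ m) × ZMod (c ^ m) =>
      digs A B c m (rep _ g) = w)).card ≤
    (Finset.univ.filter (fun g : ZMod (c ^ m) × ZMod (c ^ m) =>
      digs A B c m (rep _ g) = w')).card := by
  obtain ⟨v, hv⟩ := digs_surj A B c hg m w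
  obtain ⟨v', hv'⟩ := digs_surj A B c hg m w'
  apply Finset.card_le_card_of_injOn (fun g => g - cls _ v + cls _ v')
  · intro g hg
    simp only [Finset.coe_filter, Finset.mem_univ, true_and, Set.mem_ofPred_eq] at hg ⊢
    have h1 : digs A B c m (rep _ (g - cls _ v + cls _ v')) =
        digs A B c m (rep _ g - v + v') := by
      apply digs_cls
      rw [cls_rep]
      have : cls (c ^ m) (rep (c ^ m) g - v + v') = cls _ (rep _ g) - cls _ v + cls _ v' := by
        ext <;> simp [cls]
      rw [this, cls_rep]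
    rw [h1, digs_shift A B c m (rep _ g) v v' (by rw [hg, hv]), hv']
  · intro x _ y _ hxy
    simpa using hxy

open Classical in
lemma card_fiber (A B : ℤ) (c : ℕ) [NeZero c] (hg : ∃ x y z : ℤ, x * A + y * B + z * c = 1)
    (m : ℕ) (w : Fin m → Fin c) :
    (Finset.univ.filter (fun g : ZMod (c ^ m) × ZMod (c ^ m) =>
      digs A B c m (rep _ g) = w)).card = c ^ m := by
  have h1 : (Finset.univ : Finset (ZMod (c ^ m) × ZMod (c ^ m))).card =
      ∑ w' : Fin m → Fin c, (Finset.univ.filter (fun g : ZMod (c ^ m) × ZMod (c ^ m) =>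
        digs A B c m (rep _ g) = w')).card :=
    Finset.card_eq_sum_card_fiberwise (fun _ _ => Finset.mem_coe.mpr (Finset.mem_univ _))
  have h2 : ∀ w' : Fin m → Fin c, (Finset.univ.filter (fun g : ZMod (c ^ m) × ZMod (c ^ m) =>
        digs A B c m (rep _ g) = w')).card = (Finset.univ.filter (fun g : ZMod (c ^ m) × ZMod (c ^ m) =>
        digs A B c m (rep _ g) = w)).card := fun w' =>
    le_antisymm (card_fiber_le A B c hg m w' w) (card_fiber_le A B c hg m w w')
  simp_rw [h2] at h1
  rw [Finset.sum_const, Finset.card_univ, Finset.card_univ, Fintype.card_prod, ZMod.card,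
    Fintype.card_fun, Fintype.card_fin, Fintype.card_fin, smul_eq_mul] at h1
  have hpos : 0 < c ^ m := NeZero.pos _
  exact (Nat.eq_of_mul_eq_mul_left hpos h1).symm

open Classical in
/-- The number of residue classes modulo `c ^ m` whose digit string satisfies `P`. -/
lemma card_classes (A B : ℤ) (c : ℕ) [NeZero c] (hg : ∃ x y z : ℤ, x * A + y * B + z * c = 1)
    (m : ℕ) (P : (Fin m → Fin c) → Prop) :
    (Finset.univ.filter (fun g : ZMod (c ^ m) × ZMod (c ^ m) =>
      P (digs A B c m (rep _ g)))).card =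
    (Finset.univ.filter (fun w : Fin m → Fin c => P w)).card * c ^ m := by
  rw [Finset.card_eq_sum_card_fiberwise (f := fun g => digs A B c m (rep _ g))
    (t := Finset.univ.filter (fun w : Fin m → Fin c => P w))]
  · rw [← smul_eq_mul, ← Finset.sum_const]
    apply Finset.sum_congr rfl
    intro w hw
    simp only [Finset.mem_filter, Finset.mem_univ, true_and] at hw
    refine Eq.trans ?_ (card_fiber A B c hg m w)
    congr 1
    ext g
    simp only [Finset.mem_filter, Finset.mem_univ, true_and]
    constructor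
    · rintro ⟨_, h⟩; exact h
    · intro h; exact ⟨by rw [h]; exact hw, h⟩
  · intro g hg
    simp only [Finset.coe_filter, Finset.mem_univ, true_and, Set.mem_ofPred_eq] at hg ⊢
    exact hg

end Pool.Agent.Hhelper82.Gf
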