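import Pool.Agent.Hhelper82.Gf.Torus
import Pool.Agent.Hhelper82.Gf.Coal

set_option autoImplicit false

/-!
# Frequencies and uniqueness for sequences shadowed by an equidistributed sequence
-/

open Filter Topology Finset

namespace Pool.Agent.Hhelper82.Gf

open Classical in
/-- Equidistribution (upper bounds) modulo all `q` of a sequence of integer points. -/
def EqU (fl : ℕ → ℤ × ℤ) : Prop :=
  ∀ (q : ℕ) [NeZero q] (g : ZMod q × ZMod q) (ε : ℝ), 0 < ε →
      ∀ᶠ M : ℕ in atTop, (((range M).filter (fun n => cls q (fl n) = g)).card : ℝ) ≤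
        (1 / (q : ℝ) ^ 2 + ε) * M

open Classical in
lemma classes_upper {fl : ℕ → ℤ × ℤ} (h : EqU fl) (q : ℕ) [NeZero q]
    (S : Finset (ZMod q × ZMod q)) (ε : ℝ) (hε : 0 < ε) :
    ∀ᶠ M : ℕ in atTop, (((range M).filter (fun n => cls q (fl n) ∈ S)).card : ℝ) ≤
      (S.card / (q : ℝ) ^ 2 + ε) * M := by
  have h1 : ∀ᶠ M : ℕ in atTop, ∀ g ∈ S, (((range M).filter (fun n => cls q (fl n) = g)).card : ℝ) ≤
      (1 / (q : ℝ) ^ 2 + ε / (S.card + 1)) * M := by
    rw [Filter.eventually_all_finset]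
    intro g _
    exact h q g _ (by positivity)
  filter_upwards [h1] with M hM
  have e : ((range M).filter (fun n => cls q (fl n) ∈ S)).card =
      ∑ g ∈ S, ((range M).filter (fun n => cls q (fl n) = g)).card := by
    rw [Finset.card_eq_sum_card_fiberwise (f := fun n => cls q (fl n)) (t := S)]
    · apply Finset.sum_congr rfl
      intro g hg
      congr 1
      ext n
      simp only [Finset.mem_filter]
      constructor
      · rintro ⟨⟨a, _⟩, b⟩; exact ⟨a, b⟩
      · rintro ⟨a, b⟩; exact ⟨⟨a, by rw [b]; exact hg⟩, b⟩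
    · intro n hn
      exact (Finset.mem_filter.mp hn).2
  rw [e]
  push_cast
  calc _ ≤ ∑ _g ∈ S, (1 / (q : ℝ) ^ 2 + ε / (S.card + 1)) * M := Finset.sum_le_sum hM
    _ = (S.card / (q : ℝ) ^ 2 + S.card * (ε / (S.card + 1))) * M := by
        rw [Finset.sum_const, nsmul_eq_mul]; ring
    _ ≤ _ := by
        apply mul_le_mul_of_nonneg_right _ (by positivity)
        have : (S.card : ℝ) * (ε / (S.card + 1)) ≤ ε := by
          rw [← mul_div_assoc, div_le_iff₀ (by positivity)]
          nlinarith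
        linarith

section

variable (A B : ℤ) (c : ℕ) [NeZero c]

lemma digs_castAdd (r l : ℕ) (u : ℤ × ℤ) :
    (fun j => digs A B c (r + l) u (Fin.castAdd l j)) = digs A B c r u := by
  funext j
  rw [digs_apply, digs_apply]
  rfl

lemma digs_natAdd (r l : ℕ) (u : ℤ × ℤ) :
    (fun j => digs A B c (r + l) u (Fin.natAdd r j)) = digs A B c l ((pr A B c)^[r] u) := by
  funext j
  rw [digs_apply, digs_apply, Fin.val_natAdd, add_comm r (j : ℕ), Function.iterate_add_apply]

/-- The bad or good words. -/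
def PW (F : Finset (ℤ × ℤ)) (r l : ℕ) (w : Fin l → Fin c) (W : Fin (r + l) → Fin c) : Prop :=
  (∃ f ∈ F, run A B c r (fun j => W (Fin.castAdd l j)) f ≠ 0) ∨ (fun j => W (Fin.natAdd r j)) = w

lemma PW_of_digs (F : Finset (ℤ × ℤ)) (fl v : ℕ → ℤ × ℤ) (hpr : ∀ n, pr A B c (v (n + 1)) = v n)
    (hF : ∀ n, ∃ f ∈ F, v n = fl n + f) (r l : ℕ) (w : Fin l → Fin c) (n : ℕ)
    (h : digs A B c l (v n) = w) : PW A B c F r l w (digs A B c (r + l) (fl (n + r))) := by
  by_cases hb : ∃ f ∈ F, run A B c r (fun j => digs A B c (r + l) (fl (n + r)) (Fin.castAdd l j)) f ≠ 0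
  · exact Or.inl hb
  right
  push Not at hb
  obtain ⟨f, hf, hv⟩ := hF (n + r)
  have h1 := hb f hf
  rw [digs_castAdd] at h1
  have h2 : ∀ k, (pr A B c)^[k] (v (n + k)) = v n := by
    intro k
    induction k with
    | zero => rfl
    | succ k ih =>
      rw [Function.iterate_succ_apply, ← add_assoc, hpr, ih]
  have h3 := iter_add A B c r (fl (n + r)) f
  rw [← hv, h2, h1, add_zero] at h3
  rw [digs_natAdd, ← h3, h]

omit [NeZero c] in
lemma iter_v {v : ℕ → ℤ × ℤ} (hpr : ∀ n, pr A B c (v (n + 1)) = v n) (n k : ℕ) :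
    (pr A B c)^[k] (v (n + k)) = v n := by
  induction k with
  | zero => rfl
  | succ k ih =>
    rw [Function.iterate_succ_apply, ← add_assoc, hpr, ih]

omit [NeZero c] in
open Classical in
lemma card_PW (F : Finset (ℤ × ℤ)) (r l : ℕ) (w : Fin l → Fin c) :
    (Finset.univ.filter (fun W : Fin (r + l) → Fin c => PW A B c F r l w W)).card ≤
      (∑ f ∈ F, cntB A B c r f) * c ^ l + c ^ r := by
  have e := Finset.card_equiv (s := Finset.univ.filter
      (fun W : Fin (r + l) → Fin c => PW A B c F r l w W))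
    (t := Finset.univ.filter (fun p : (Fin r → Fin c) × (Fin l → Fin c) =>
      (∃ f ∈ F, run A B c r p.1 f ≠ 0) ∨ p.2 = w)) (Fin.appendEquiv r l).symm (by
      intro W
      simp only [Finset.mem_filter, Finset.mem_univ, true_and, PW]
      rfl)
  rw [e]
  calc _ ≤ ((F.biUnion fun f => (Finset.univ.filter (fun u : Fin r → Fin c => run A B c r u f ≠ 0)) ×ˢ
        (Finset.univ : Finset (Fin l → Fin c))) ∪
        ((Finset.univ : Finset (Fin r → Fin c)) ×ˢ {w})).card := by
        apply Finset.card_le_card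
        intro p hp
        simp only [Finset.mem_filter, Finset.mem_univ, true_and] at hp
        rw [Finset.mem_union]
        rcases hp with ⟨f, hf, h⟩ | h
        · left
          rw [Finset.mem_biUnion]
          exact ⟨f, hf, by rw [Finset.mem_product]; exact ⟨by simpa using h, Finset.mem_univ _⟩⟩
        · right
          rw [Finset.mem_product]
          exact ⟨Finset.mem_univ _, by simpa using h⟩
    _ ≤ _ := by
        refine (Finset.card_union_le _ _).trans ?_
        apply add_le_add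
        · refine Finset.card_biUnion_le.trans ?_
          rw [Finset.sum_mul]
          apply Finset.sum_le_sum
          intro f _
          rw [Finset.card_product, Finset.card_univ, Fintype.card_fun, Fintype.card_fin,
            Fintype.card_fin]
          rfl
        · rw [Finset.card_product, Finset.card_univ, Fintype.card_fun, Fintype.card_fin,
            Fintype.card_fin, Finset.card_singleton, mul_one]

variable (hg : ∃ x y z : ℤ, x * A + y * B + z * c = 1) (hA : 0 < A) (hAc : A < c)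
  (hd : B ^ 2 < 4 * A * c)

include hg hA hAc hd

open Classical in
/-- The basic upper bound. -/
lemma freq_upper (K F : Finset (ℤ × ℤ)) (hFK : F ⊆ K)
    (hK : ∀ s ∈ K, ∀ d : Fin c, st A B c (d : ℕ) s ∈ K)
    (fl v : ℕ → ℤ × ℤ) (hfl : EqU fl) (hpr : ∀ n, pr A B c (v (n + 1)) = v n)
    (hF : ∀ n, ∃ f ∈ F, v n = fl n + f) (l h : ℕ) (w : Fin l → Fin c) (ε : ℝ) (hε : 0 < ε) :
    ∀ᶠ M : ℕ in atTop, (((range M).filter (fun t => digs A B c l (v (t + h)) = w)).card : ℝ) ≤
      (1 / (c : ℝ) ^ l + ε) * M := by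
  have hc : (0 : ℝ) < c := by exact_mod_cast NeZero.pos c
  obtain ⟨r, hr⟩ := rho_decay A B c hA hAc hd K hK (ε / 3 / (F.card + 1)) (by positivity)
  set q := c ^ (r + l) with hq
  have hqr : (0 : ℝ) < q := by rw [hq]; push_cast; positivity
  set S : Finset (ZMod q × ZMod q) :=
    Finset.univ.filter (fun g => PW A B c F r l w (digs A B c (r + l) (rep q g))) with hS
  have hScard : S.card = (Finset.univ.filter (fun W : Fin (r + l) → Fin c => PW A B c F r l w W)).card * q :=
    card_classes A B c hg (r + l) (PW A B c F r l w)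
  have hSle : (S.card : ℝ) / (q : ℝ) ^ 2 ≤ 1 / (c : ℝ) ^ l + ε / 3 := by
    have h1 := card_PW A B c F r l w
    have h2 : (S.card : ℝ) ≤ (((∑ f ∈ F, cntB A B c r f) * c ^ l + c ^ r : ℕ) : ℝ) * q := by
      rw [hScard]
      push_cast
      apply mul_le_mul_of_nonneg_right _ hqr.le
      exact_mod_cast h1
    have h3 : (S.card : ℝ) / (q : ℝ) ^ 2 ≤ ((∑ f ∈ F, (cntB A B c r f : ℝ)) * c ^ l + c ^ r) / q := by
      rw [div_le_div_iff₀ (by positivity) hqr]
      push_cast at h2
      nlinarith [mul_le_mul_of_nonneg_right h2 hqr.le]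
    have h4 : ((∑ f ∈ F, (cntB A B c r f : ℝ)) * c ^ l + c ^ r) / q =
        (∑ f ∈ F, rho A B c r f) + 1 / (c : ℝ) ^ l := by
      rw [hq]
      unfold rho
      rw [← Finset.sum_div]
      push_cast
      rw [pow_add]
      field_simp
    have h5 : ∑ f ∈ F, rho A B c r f ≤ ε / 3 := by
      calc _ ≤ ∑ _f ∈ F, ε / 3 / (F.card + 1) := Finset.sum_le_sum fun f hf => hr f (hFK hf)
        _ = F.card * (ε / 3 / (F.card + 1)) := by rw [Finset.sum_const, nsmul_eq_mul]
        _ ≤ ε / 3 := by
          rw [← mul_div_assoc, div_le_iff₀ (by positivity)]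
          nlinarith
    linarith
  have hup := classes_upper hfl q S (ε / 3) (by positivity)
  have hup' := (tendsto_add_atTop_nat (h + r)).eventually hup
  obtain ⟨N, hN⟩ := exists_nat_gt ((1 + ε) * (h + r) * 3 / ε)
  filter_upwards [hup', eventually_ge_atTop N] with M hM hMN
  have hsub : ((range M).filter (fun t => digs A B c l (v (t + h)) = w)).card ≤
      ((range (M + (h + r))).filter (fun n => cls q (fl n) ∈ S)).card := by
    apply Finset.card_le_card_of_injOn (fun t => t + (h + r))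
    · intro t ht
      simp only [Finset.coe_filter, Finset.mem_range, Set.mem_ofPred_eq] at ht ⊢
      refine ⟨by omega, ?_⟩
      rw [hS, Finset.mem_filter]
      refine ⟨Finset.mem_univ _, ?_⟩
      have h1 := PW_of_digs A B c F fl v hpr hF r l w (t + h) ht.2
      rw [add_assoc] at h1
      have h2 : digs A B c (r + l) (rep q (cls q (fl (t + (h + r))))) =
          digs A B c (r + l) (fl (t + (h + r))) := by
        apply digs_cls
        rw [← hq, cls_rep]
      rw [h2]
      exact h1
    · intro x _ y _ hxy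
      simpa using hxy
  have hMr : (N : ℝ) ≤ M := by exact_mod_cast hMN
  have h1 : (((range M).filter (fun t => digs A B c l (v (t + h)) = w)).card : ℝ) ≤
      ((range (M + (h + r))).filter (fun n => cls q (fl n) ∈ S)).card := by exact_mod_cast hsub
  refine h1.trans (hM.trans ?_)
  push_cast
  have hcl : 1 / (c : ℝ) ^ l ≤ 1 := by
    rw [div_le_one (by positivity)]
    apply one_le_pow₀
    exact_mod_cast NeZero.pos c
  have h2 : (1 + ε) * (h + r) * 3 / ε < M := lt_of_lt_of_le hN hMr
  rw [div_lt_iff₀ hε] at h2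
  have h3 : (0 : ℝ) ≤ M + (h + r) := by positivity
  calc ((S.card : ℝ) / (q : ℝ) ^ 2 + ε / 3) * (M + (h + r))
      ≤ (1 / (c : ℝ) ^ l + ε / 3 + ε / 3) * (M + (h + r)) := by
        apply mul_le_mul_of_nonneg_right _ h3
        linarith
    _ = (1 / (c : ℝ) ^ l + 2 * ε / 3) * M + (1 / (c : ℝ) ^ l + 2 * ε / 3) * (h + r) := by ring
    _ ≤ (1 / (c : ℝ) ^ l + 2 * ε / 3) * M + (1 + ε) * (h + r) := by
        have h4 : (0 : ℝ) ≤ (h + r : ℝ) := by positivity
        have h5 : 1 / (c : ℝ) ^ l + 2 * ε / 3 ≤ 1 + ε := by linarith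
        have := mul_le_mul_of_nonneg_right h5 h4
        linarith
    _ ≤ (1 / (c : ℝ) ^ l + ε) * M := by nlinarith

open Classical in
/-- All words have the right frequency. -/
theorem freq_tendsto (K F : Finset (ℤ × ℤ)) (hFK : F ⊆ K)
    (hK : ∀ s ∈ K, ∀ d : Fin c, st A B c (d : ℕ) s ∈ K)
    (fl v : ℕ → ℤ × ℤ) (hfl : EqU fl) (hpr : ∀ n, pr A B c (v (n + 1)) = v n)
    (hF : ∀ n, ∃ f ∈ F, v n = fl n + f) (l h : ℕ) (w : Fin l → Fin c) :
    Tendsto (fun M : ℕ => (((range M).filter (fun t => digs A B c l (v (t + h)) = w)).card : ℝ) / M)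
      atTop (𝓝 (1 / (c : ℝ) ^ l)) := by
  have hc : (0 : ℝ) < c := by exact_mod_cast NeZero.pos c
  rw [Metric.tendsto_atTop]
  intro ε hε
  set n0 : ℝ := (c : ℝ) ^ l with hn0
  have hn0pos : 0 < n0 := by positivity
  have hall : ∀ᶠ M : ℕ in atTop, ∀ w' : Fin l → Fin c,
      (((range M).filter (fun t => digs A B c l (v (t + h)) = w')).card : ℝ) ≤
      (1 / (c : ℝ) ^ l + ε / (2 * (n0 + 1))) * M := by
    rw [Filter.eventually_all]
    intro w'
    exact freq_upper A B c hg hA hAc hd K F hFK hK fl v hfl hpr hF l h w' _ (by positivity)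
  obtain ⟨N, hN⟩ := Filter.eventually_atTop.mp hall
  refine ⟨max N 1, fun M hM => ?_⟩
  have hMN := hN M (le_trans (le_max_left _ _) hM)
  have hM1 : 1 ≤ M := le_trans (le_max_right _ _) hM
  have hMr : (0 : ℝ) < M := by exact_mod_cast hM1
  rw [← hn0] at hMN
  have hupw := hMN w
  have htot : (M : ℝ) = ∑ w' : Fin l → Fin c,
      (((range M).filter (fun t => digs A B c l (v (t + h)) = w')).card : ℝ) := by
    have := Finset.card_eq_sum_card_fiberwise (s := range M) (t := Finset.univ)
      (f := fun t => digs A B c l (v (t + h))) (fun _ _ => Finset.mem_coe.mpr (Finset.mem_univ _))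
    rw [Finset.card_range] at this
    exact_mod_cast this
  have hlow : (M : ℝ) ≤ (((range M).filter (fun t => digs A B c l (v (t + h)) = w)).card : ℝ) +
      (n0 - 1) * ((1 / n0 + ε / (2 * (n0 + 1))) * M) := by
    rw [← Finset.add_sum_erase _ _ (Finset.mem_univ w)] at htot
    have h2 : ∑ w' ∈ Finset.univ.erase w,
        (((range M).filter (fun t => digs A B c l (v (t + h)) = w')).card : ℝ) ≤
        ∑ _w' ∈ (Finset.univ : Finset (Fin l → Fin c)).erase w,
          (1 / n0 + ε / (2 * (n0 + 1))) * M := Finset.sum_le_sum fun w' _ => hMN w'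
    rw [Finset.sum_const, Finset.card_erase_of_mem (Finset.mem_univ _), Finset.card_univ,
      Fintype.card_fun, Fintype.card_fin, Fintype.card_fin, nsmul_eq_mul,
      Nat.cast_sub (Nat.one_le_pow _ _ (NeZero.pos c)), Nat.cast_one, Nat.cast_pow, ← hn0] at h2
    linarith
  rw [Real.dist_eq, abs_lt]
  have hε2 : ε / (2 * (n0 + 1)) ≤ ε / 2 := by
    apply div_le_div_of_nonneg_left hε.le (by norm_num)
    linarith
  constructor
  · have h1 : (1 / n0 - ε / 2) * M ≤
        (((range M).filter (fun t => digs A B c l (v (t + h)) = w)).card : ℝ) := by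
      have e1 : (n0 - 1) * ((1 / n0 + ε / (2 * (n0 + 1))) * M) =
          (1 - 1 / n0) * M + (n0 - 1) * (ε / (2 * (n0 + 1))) * M := by
        field_simp
      have e2 : (n0 - 1) * (ε / (2 * (n0 + 1))) ≤ ε / 2 := by
        rw [← mul_div_assoc, div_le_div_iff₀ (by positivity) (by norm_num)]
        nlinarith
      have e3 := mul_le_mul_of_nonneg_right e2 hMr.le
      rw [e1] at hlow
      linarith
    have h2 : 1 / n0 - ε / 2 ≤
        (((range M).filter (fun t => digs A B c l (v (t + h)) = w)).card : ℝ) / M := by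
      rw [le_div_iff₀ hMr]; exact h1
    linarith
  · have h2 : (((range M).filter (fun t => digs A B c l (v (t + h)) = w)).card : ℝ) / M ≤
        1 / n0 + ε / (2 * (n0 + 1)) := by
      rw [div_le_iff₀ hMr]; exact hupw
    linarith

open Classical in
/-- Coalescence happens arbitrarily late. -/
lemma exists_coal (K F : Finset (ℤ × ℤ)) (hFK : F ⊆ K)
    (hK : ∀ s ∈ K, ∀ d : Fin c, st A B c (d : ℕ) s ∈ K)
    (fl : ℕ → ℤ × ℤ) (hfl : EqU fl) (N0 : ℕ) :
    ∃ n ≥ N0, ∃ r, ∀ f ∈ F, run A B c r (digs A B c r (fl (n + r))) f = 0 := by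
  have hc : (0 : ℝ) < c := by exact_mod_cast NeZero.pos c
  obtain ⟨r, hr⟩ := rho_decay A B c hA hAc hd K hK (1 / 4 / (F.card + 1)) (by positivity)
  by_contra hcon
  push Not at hcon
  set q := c ^ r with hq
  have hqr : (0 : ℝ) < q := by rw [hq]; push_cast; positivity
  set P : (Fin r → Fin c) → Prop := fun W => ∃ f ∈ F, run A B c r W f ≠ 0 with hP
  set S : Finset (ZMod q × ZMod q) :=
    Finset.univ.filter (fun g => P (digs A B c r (rep q g))) with hS
  have hScard : S.card = (Finset.univ.filter (fun W : Fin r → Fin c => P W)).card * q := by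
    have := card_classes A B c hg r P
    convert this
  have hPcard : (Finset.univ.filter (fun W : Fin r → Fin c => P W)).card ≤ ∑ f ∈ F, cntB A B c r f := by
    calc _ ≤ (F.biUnion fun f => Finset.univ.filter (fun u : Fin r → Fin c => run A B c r u f ≠ 0)).card := by
          apply Finset.card_le_card
          intro W hW
          rw [Finset.mem_filter] at hW
          obtain ⟨f, hf, h⟩ := hW.2
          rw [Finset.mem_biUnion]
          exact ⟨f, hf, by simpa using h⟩
      _ ≤ _ := Finset.card_biUnion_le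
  have hSle : (S.card : ℝ) / (q : ℝ) ^ 2 ≤ 1 / 4 := by
    have h2 : (S.card : ℝ) ≤ (((∑ f ∈ F, cntB A B c r f) : ℕ) : ℝ) * q := by
      rw [hScard]
      push_cast
      apply mul_le_mul_of_nonneg_right _ hqr.le
      exact_mod_cast hPcard
    have h3 : (S.card : ℝ) / (q : ℝ) ^ 2 ≤ (∑ f ∈ F, (cntB A B c r f : ℝ)) / q := by
      rw [div_le_div_iff₀ (by positivity) hqr]
      push_cast at h2
      nlinarith [mul_le_mul_of_nonneg_right h2 hqr.le]
    have h4 : (∑ f ∈ F, (cntB A B c r f : ℝ)) / q = ∑ f ∈ F, rho A B c r f := by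
      rw [hq]
      unfold rho
      rw [← Finset.sum_div]
      push_cast
      rfl
    have h5 : ∑ f ∈ F, rho A B c r f ≤ 1 / 4 := by
      calc _ ≤ ∑ _f ∈ F, 1 / 4 / ((F.card : ℝ) + 1) := Finset.sum_le_sum fun f hf => hr f (hFK hf)
        _ = F.card * (1 / 4 / (F.card + 1)) := by rw [Finset.sum_const, nsmul_eq_mul]
        _ ≤ 1 / 4 := by
          rw [← mul_div_assoc, div_le_iff₀ (by positivity)]
          nlinarith
    linarith
  have hup := classes_upper hfl q S (1 / 4) (by norm_num)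
  obtain ⟨N1, hN1⟩ := Filter.eventually_atTop.mp hup
  obtain ⟨M, hM⟩ : ∃ M, M = N1 + 4 * (N0 + r) + 4 := ⟨_, rfl⟩
  have h1 := hN1 M (by omega)
  -- all n ≥ N0 + r are bad
  have h2 : M - (N0 + r) ≤ ((range M).filter (fun n => cls q (fl n) ∈ S)).card := by
    have : (Finset.Ico (N0 + r) M).card ≤ ((range M).filter (fun n => cls q (fl n) ∈ S)).card := by
      apply Finset.card_le_card
      intro n hn
      rw [Finset.mem_Ico] at hn
      rw [Finset.mem_filter, Finset.mem_range, hS, Finset.mem_filter]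
      refine ⟨hn.2, Finset.mem_univ _, ?_⟩
      have h3 : digs A B c r (rep q (cls q (fl n))) = digs A B c r (fl n) := by
        apply digs_cls
        rw [← hq, cls_rep]
      rw [h3]
      obtain ⟨f, hf, h4⟩ := hcon (n - r) (by omega) r
      rw [Nat.sub_add_cancel (by omega)] at h4
      exact ⟨f, hf, h4⟩
    rwa [Nat.card_Ico] at this
  have h3 : ((M - (N0 + r) : ℕ) : ℝ) ≤ (1 / 4 + 1 / 4) * M := by
    refine le_trans (by exact_mod_cast h2) (h1.trans ?_)
    apply mul_le_mul_of_nonneg_right _ (by positivity)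
    linarith
  have h4 : (2 * (M - (N0 + r)) : ℕ) ≤ M := by
    have : (2 : ℝ) * ((M - (N0 + r) : ℕ) : ℝ) ≤ M := by linarith
    exact_mod_cast this
  omega

/-- Uniqueness. -/
theorem unique (K F : Finset (ℤ × ℤ)) (hFK : F ⊆ K)
    (hK : ∀ s ∈ K, ∀ d : Fin c, st A B c (d : ℕ) s ∈ K)
    (fl v v' : ℕ → ℤ × ℤ) (hfl : EqU fl) (hpr : ∀ n, pr A B c (v (n + 1)) = v n)
    (hF : ∀ n, ∃ f ∈ F, v n = fl n + f) (hpr' : ∀ n, pr A B c (v' (n + 1)) = v' n)
    (hF' : ∀ n, ∃ f ∈ F, v' n = fl n + f) : ∀ n, v n = v' n := by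
  intro n
  obtain ⟨m, hm, r, hr⟩ := exists_coal A B c hg hA hAc hd K F hFK hK fl hfl n
  have key : ∀ u : ℕ → ℤ × ℤ, (∀ n, pr A B c (u (n + 1)) = u n) → (∀ n, ∃ f ∈ F, u n = fl n + f) →
      u m = (pr A B c)^[r] (fl (m + r)) := by
    intro u hu1 hu2
    obtain ⟨f, hf, h1⟩ := hu2 (m + r)
    have h2 := iter_add A B c r (fl (m + r)) f
    rw [← h1, iter_v A B c hu1, hr f hf, add_zero] at h2
    exact h2
  have h1 := iter_v A B c hpr n (m - n)
  have h2 := iter_v A B c hpr' n (m - n)
  rw [Nat.add_sub_cancel' hm] at h1 h2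
  rw [← h1, ← h2, key v hpr hF, key v' hpr' hF']

end

end Pool.Agent.Hhelper82.Gf
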