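import Mathlib
import Pool.Agent.Lib.ErgodicAverages

set_option autoImplicit false

/-!
# Almost everywhere vanishing of exponential averages along `α ^ n x`
-/

open MeasureTheory Filter Topology Finset Complex
open scoped ENNReal NNReal ComplexConjugate

namespace Pool.Agent.Hhelper82.Gf

/-- The Gaussian weight. -/
noncomputable def gw (x : ℂ) : ℝ := Real.exp (-‖x‖ ^ 2)

/-- The Gaussian measure (unnormalised). -/
noncomputable def gm : Measure ℂ := (volume : Measure ℂ).withDensity (fun x => ENNReal.ofReal (gw x))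

lemma gw_pos (x : ℂ) : 0 < gw x := Real.exp_pos _

lemma gw_cont : Continuous gw := by unfold gw; fun_prop

lemma gauss_int (w : ℂ) : ∫ x : ℂ, (gw x : ℂ) * cexp (I * (inner ℝ w x : ℝ)) =
    Real.pi * (Real.exp (-‖w‖ ^ 2 / 4) : ℝ) := by
  have h := GaussianFourier.integral_cexp_neg_mul_sq_norm_add (V := ℂ) (b := 1) (by simp) I w
  have e1 : ∀ x : ℂ, (gw x : ℂ) * cexp (I * (inner ℝ w x : ℝ)) =
      cexp (-1 * (‖x‖ : ℂ) ^ 2 + I * (inner ℝ w x : ℝ)) := by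
    intro x
    rw [Complex.exp_add]
    congr 1
    unfold gw
    push_cast
    ring_nf
  simp_rw [e1]
  rw [h]
  have : (Module.finrank ℝ ℂ : ℂ) / 2 = 1 := by
    rw [Complex.finrank_real_complex]; norm_num
  rw [this]
  simp only [div_one, cpow_one, I_sq, mul_one]
  congr 1
  push_cast
  congr 1
  ring

lemma gw_integrable : Integrable gw := by
  have h := GaussianFourier.integrable_cexp_neg_mul_sq_norm_add (V := ℂ) (b := 1) (by simp) 0 0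
  have h2 := h.norm
  refine h2.congr (Eventually.of_forall fun x => ?_)
  simp only [gw, inner_zero_left, Complex.ofReal_zero, mul_zero, add_zero]
  rw [Complex.norm_exp]
  congr 1
  have : (-1 * (‖x‖ : ℂ) ^ 2) = ((-‖x‖ ^ 2 : ℝ) : ℂ) := by push_cast; ring
  rw [this, Complex.ofReal_re]

instance : IsFiniteMeasure gm := by
  unfold gm
  exact isFiniteMeasure_withDensity_ofReal gw_integrable.2

lemma ae_of_gm {p : ℂ → Prop} (h : ∀ᵐ x ∂gm, p x) : ∀ᵐ x, p x := by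
  unfold gm at h
  rw [ae_withDensity_iff (by exact gw_cont.measurable.ennreal_ofReal)] at h
  filter_upwards [h] with x hx
  apply hx
  simp [gw_pos]

lemma integral_gm (f : ℂ → ℂ) : ∫ x, f x ∂gm = ∫ x, (gw x : ℂ) * f x := by
  unfold gm
  rw [integral_withDensity_eq_integral_toReal_smul (by exact gw_cont.measurable.ennreal_ofReal)
    (Eventually.of_forall fun x => ENNReal.ofReal_lt_top)]
  apply integral_congr_ae
  refine Eventually.of_forall fun x => ?_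
  simp only
  rw [ENNReal.toReal_ofReal (gw_pos x).le]
  rfl

/-- The oscillating sequence. -/
noncomputable def Yf (α ξ : ℂ) (n : ℕ) (x : ℂ) : ℂ := cexp (I * (inner ℝ ξ (α ^ n * x) : ℝ))

lemma inner_mul_right' (ξ a x : ℂ) : (inner ℝ ξ (a * x) : ℝ) = inner ℝ (conj a * ξ) x := by
  simp only [Complex.inner, map_mul, Complex.conj_conj]
  congr 1
  ring

lemma Yf_norm (α ξ : ℂ) (n : ℕ) (x : ℂ) : ‖Yf α ξ n x‖ = 1 := by
  unfold Yf
  rw [mul_comm, Complex.norm_exp_ofReal_mul_I]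

lemma Yf_cont (α ξ : ℂ) (n : ℕ) : Continuous (Yf α ξ n) := by
  unfold Yf
  fun_prop

lemma Yf_mul_conj (α ξ : ℂ) (n k : ℕ) (x : ℂ) : Yf α ξ n x * conj (Yf α ξ k x) =
    cexp (I * (inner ℝ (conj (α ^ n - α ^ k) * ξ) x : ℝ)) := by
  unfold Yf
  rw [← Complex.exp_conj, ← Complex.exp_add]
  congr 1
  rw [map_mul, Complex.conj_I, Complex.conj_ofReal, inner_mul_right', inner_mul_right', map_sub,
    sub_mul, inner_sub_left]
  push_cast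
  ring

lemma pow_sep {α : ℂ} (hα : 1 < ‖α‖) {n k : ℕ} (h : n ≠ k) :
    (‖α‖ - 1) * ‖α‖ ^ k ≤ ‖α‖ * ‖α ^ n - α ^ k‖ := by
  have h1 : |‖α ^ n‖ - ‖α ^ k‖| ≤ ‖α ^ n - α ^ k‖ := abs_norm_sub_norm_le _ _
  rw [norm_pow, norm_pow] at h1
  rcases lt_or_gt_of_ne h with hlt | hgt
  · -- n < k
    obtain ⟨j, rfl⟩ : ∃ j, k = j + 1 := ⟨k - 1, by omega⟩
    have h2 : ‖α‖ ^ n ≤ ‖α‖ ^ j := pow_le_pow_right₀ hα.le (by omega)
    have h3 : ‖α‖ ^ (j + 1) - ‖α‖ ^ n ≤ ‖α ^ n - α ^ (j + 1)‖ := by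
      refine le_trans ?_ h1
      rw [abs_sub_comm]
      exact le_abs_self _
    have h4 : (‖α‖ - 1) * ‖α‖ ^ j ≤ ‖α ^ n - α ^ (j + 1)‖ := by
      have h5 : ‖α‖ ^ (j + 1) = ‖α‖ ^ j * ‖α‖ := pow_succ _ _
      rw [h5] at h3
      nlinarith
    calc (‖α‖ - 1) * ‖α‖ ^ (j + 1) = ‖α‖ * ((‖α‖ - 1) * ‖α‖ ^ j) := by ring
      _ ≤ _ := mul_le_mul_of_nonneg_left h4 (norm_nonneg _)
  · have h2 : ‖α‖ ^ (k + 1) ≤ ‖α‖ ^ n := pow_le_pow_right₀ hα.le (by omega)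
    have h3 : ‖α‖ ^ n - ‖α‖ ^ k ≤ ‖α ^ n - α ^ k‖ := (le_abs_self _).trans h1
    have h4 : (‖α‖ - 1) * ‖α‖ ^ k ≤ ‖α ^ n - α ^ k‖ := by
      rw [pow_succ] at h2
      nlinarith
    calc (‖α‖ - 1) * ‖α‖ ^ k ≤ ‖α ^ n - α ^ k‖ := h4
      _ ≤ ‖α‖ * ‖α ^ n - α ^ k‖ := le_mul_of_one_le_left (norm_nonneg _) hα.le

lemma exp_neg_le_inv {y : ℝ} (hy : 0 < y) : Real.exp (-y) ≤ y⁻¹ := by
  rw [Real.exp_neg]
  apply inv_anti₀ hy
  linarith [Real.add_one_le_exp y]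

lemma second_moment {α ξ : ℂ} (hα : 1 < ‖α‖) (hξ : ξ ≠ 0) : ∃ K : ℝ, ∀ N : ℕ,
    ∫ x, ‖∑ n ∈ range N, Yf α ξ n x‖ ^ 2 ∂gm ≤ K * N := by
  have hξ' : 0 < ‖ξ‖ := norm_pos_iff.mpr hξ
  have hα0 : 0 < ‖α‖ := by linarith
  set c1 : ℝ := ((‖α‖ - 1) * ‖ξ‖ / ‖α‖) ^ 2 / 4 with hc1
  have hα1 : 0 < ‖α‖ - 1 := by linarith
  have hc1p : 0 < c1 := by positivity
  have hα2 : 1 < ‖α‖ ^ 2 := by nlinarith
  set S : ℝ := c1⁻¹ * (1 - (‖α‖ ^ 2)⁻¹)⁻¹ with hS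
  have hgeo : ∀ N : ℕ, ∑ k ∈ range N, ((‖α‖ ^ 2)⁻¹) ^ k ≤ (1 - (‖α‖ ^ 2)⁻¹)⁻¹ := by
    intro N
    have h0 : 0 ≤ (‖α‖ ^ 2)⁻¹ := by positivity
    have h1 : (‖α‖ ^ 2)⁻¹ < 1 := inv_lt_one_of_one_lt₀ hα2
    rw [← tsum_geometric_of_lt_one h0 h1]
    exact (summable_geometric_of_lt_one h0 h1).sum_le_tsum _ (fun i _ => by positivity)
  refine ⟨Real.pi * (1 + S), fun N => ?_⟩
  have e1 : ∀ x, ((‖∑ n ∈ range N, Yf α ξ n x‖ ^ 2 : ℝ) : ℂ) =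
      ∑ n ∈ range N, ∑ k ∈ range N, cexp (I * (inner ℝ (conj (α ^ n - α ^ k) * ξ) x : ℝ)) := by
    intro x
    rw [← Complex.normSq_eq_norm_sq, Complex.normSq_eq_conj_mul_self, mul_comm, map_sum,
      Finset.sum_mul_sum]
    simp_rw [Yf_mul_conj]
  have hint : ∀ w : ℂ, Integrable (fun x : ℂ => cexp (I * (inner ℝ w x : ℝ))) gm := by
    intro w
    apply Integrable.of_bound (C := 1) (Continuous.aestronglyMeasurable (by fun_prop))
    refine Eventually.of_forall fun x => ?_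
    rw [mul_comm, Complex.norm_exp_ofReal_mul_I]
  have e2 : ((∫ x, ‖∑ n ∈ range N, Yf α ξ n x‖ ^ 2 ∂gm : ℝ) : ℂ) =
      ∑ n ∈ range N, ∑ k ∈ range N, ((Real.pi * Real.exp (-‖conj (α ^ n - α ^ k) * ξ‖ ^ 2 / 4) : ℝ) : ℂ) := by
    rw [← integral_complex_ofReal]
    simp_rw [e1]
    rw [integral_finsetSum _ (fun n _ => integrable_finsetSum _ fun k _ => hint _)]
    apply Finset.sum_congr rfl
    intro n _
    rw [integral_finsetSum _ (fun k _ => hint _)]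
    apply Finset.sum_congr rfl
    intro k _
    rw [integral_gm, gauss_int]
    push_cast
    rfl
  have e3 : ∫ x, ‖∑ n ∈ range N, Yf α ξ n x‖ ^ 2 ∂gm =
      ∑ n ∈ range N, ∑ k ∈ range N, (Real.pi * Real.exp (-‖conj (α ^ n - α ^ k) * ξ‖ ^ 2 / 4)) := by
    exact_mod_cast e2
  rw [e3]
  have hterm : ∀ n k : ℕ, n ≠ k → Real.exp (-‖conj (α ^ n - α ^ k) * ξ‖ ^ 2 / 4) ≤
      c1⁻¹ * ((‖α‖ ^ 2)⁻¹) ^ k := by
    intro n k hnk
    have h1 := pow_sep hα hnk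
    have h2 : (‖α‖ - 1) * ‖α‖ ^ k * ‖ξ‖ / ‖α‖ ≤ ‖conj (α ^ n - α ^ k) * ξ‖ := by
      rw [norm_mul, Complex.norm_conj, div_le_iff₀ hα0]
      have := mul_le_mul_of_nonneg_right h1 hξ'.le
      linarith
    have h3 : c1 * (‖α‖ ^ 2) ^ k ≤ ‖conj (α ^ n - α ^ k) * ξ‖ ^ 2 / 4 := by
      have h4 : 0 ≤ (‖α‖ - 1) * ‖α‖ ^ k * ‖ξ‖ / ‖α‖ := by positivity
      have h5 := pow_le_pow_left₀ h4 h2 2
      have h6 : c1 * (‖α‖ ^ 2) ^ k = ((‖α‖ - 1) * ‖α‖ ^ k * ‖ξ‖ / ‖α‖) ^ 2 / 4 := by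
        rw [hc1]
        field_simp
        ring
      rw [h6]
      linarith
    have h7 : 0 < c1 * (‖α‖ ^ 2) ^ k := by positivity
    calc Real.exp (-‖conj (α ^ n - α ^ k) * ξ‖ ^ 2 / 4)
        ≤ Real.exp (-(c1 * (‖α‖ ^ 2) ^ k)) := by
          apply Real.exp_le_exp.mpr
          linarith
      _ ≤ (c1 * (‖α‖ ^ 2) ^ k)⁻¹ := exp_neg_le_inv h7
      _ = c1⁻¹ * ((‖α‖ ^ 2)⁻¹) ^ k := by rw [mul_inv, inv_pow]
  have hrow : ∀ n ∈ range N, ∑ k ∈ range N,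
      (Real.pi * Real.exp (-‖conj (α ^ n - α ^ k) * ξ‖ ^ 2 / 4)) ≤ Real.pi * (1 + S) := by
    intro n hn
    rw [← Finset.mul_sum]
    apply mul_le_mul_of_nonneg_left _ Real.pi_pos.le
    rw [← Finset.add_sum_erase _ _ hn]
    apply add_le_add
    · apply Real.exp_le_one_iff.mpr
      have := sq_nonneg ‖conj (α ^ n - α ^ n) * ξ‖
      linarith
    · calc ∑ k ∈ (range N).erase n, Real.exp (-‖conj (α ^ n - α ^ k) * ξ‖ ^ 2 / 4)
          ≤ ∑ k ∈ (range N).erase n, c1⁻¹ * ((‖α‖ ^ 2)⁻¹) ^ k :=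
            Finset.sum_le_sum fun k hk => hterm n k (Finset.ne_of_mem_erase hk).symm
        _ ≤ ∑ k ∈ range N, c1⁻¹ * ((‖α‖ ^ 2)⁻¹) ^ k :=
            Finset.sum_le_sum_of_subset_of_nonneg (Finset.erase_subset _ _)
              (fun i _ _ => by positivity)
        _ = c1⁻¹ * ∑ k ∈ range N, ((‖α‖ ^ 2)⁻¹) ^ k := by rw [Finset.mul_sum]
        _ ≤ S := mul_le_mul_of_nonneg_left (hgeo N) (by positivity)
  calc _ ≤ ∑ _n ∈ range N, Real.pi * (1 + S) := Finset.sum_le_sum hrow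
    _ = Real.pi * (1 + S) * N := by rw [Finset.sum_const, Finset.card_range, nsmul_eq_mul]; ring

/-- The exponential averages vanish almost everywhere. -/
theorem ae_avg_zero {α ξ : ℂ} (hα : 1 < ‖α‖) (hξ : ξ ≠ 0) :
    ∀ᵐ x : ℂ, Tendsto (Pool.Lib.Erg.avg fun n => Yf α ξ n x) atTop (𝓝 0) := by
  obtain ⟨K, hK⟩ := second_moment hα hξ
  apply ae_of_gm
  exact Pool.Lib.Erg.avg_zero_of_L2 (Yf α ξ) 1 (fun n => (Yf_cont α ξ n).aestronglyMeasurable)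
    (Eventually.of_forall fun x n => (Yf_norm α ξ n x).le) K hK

end Pool.Agent.Hhelper82.Gf
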