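import Pool.Agent.Hhelper82.Gf.Freq

set_option autoImplicit false

/-!
# The lattice and its coordinates
-/

open Filter Topology Finset Complex
open scoped ComplexConjugate

namespace Pool.Agent.Hhelper82.Gf

/-- The lattice point with coordinates `s`. -/
noncomputable def zc (α : ℂ) (B A : ℤ) (s : ℤ × ℤ) : ℂ := s.1 * A + s.2 * (A * α + B)

section

variable {α : ℂ} {A B : ℤ} {c : ℕ} [NeZero c] (him : α.im ≠ 0) (hA : 0 < A)
  (hroot : (A : ℂ) * α ^ 2 + B * α + c = 0)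

include him hroot in
omit [NeZero c] in
lemma coeffs : (B : ℝ) = -2 * A * α.re ∧ (c : ℝ) = A * (α.re ^ 2 + α.im ^ 2) := by
  have h1 := congrArg Complex.im hroot
  have h2 := congrArg Complex.re hroot
  simp only [pow_two, add_im, mul_im, intCast_re, intCast_im, zero_mul, add_zero, natCast_im,
    zero_im, mul_re, sub_zero, add_re, natCast_re, zero_re] at h1 h2
  have h3 : (B : ℝ) = -2 * A * α.re := by
    have : ((B : ℝ) + 2 * A * α.re) * α.im = 0 := by linarith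
    rcases mul_eq_zero.mp this with h | h
    · linarith
    · exact absurd h him
  refine ⟨h3, ?_⟩
  rw [h3] at h2
  nlinarith

omit [NeZero c] in
include hroot in
lemma mul_zc (t : ℤ × ℤ) : α * zc α B A t = t.1 * A * α - t.2 * c := by
  unfold zc
  have : (c : ℂ) = -(A * α ^ 2 + B * α) := by linear_combination hroot
  rw [this]
  ring

omit [NeZero c] in
include him hA hroot in
lemma zc_step (s t : ℤ × ℤ) (δ : ℤ) (h0 : 0 ≤ δ) (h1 : δ < c)
    (h : zc α B A s = α * zc α B A t + δ) : pr A B c s = t ∧ dg A B c s = δ := by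
  rw [mul_zc hroot] at h
  have hAr : (A : ℝ) ≠ 0 := by exact_mod_cast hA.ne'
  have him' := congrArg Complex.im h
  have hre' := congrArg Complex.re h
  simp only [zc, add_im, mul_im, intCast_re, intCast_im, mul_zero, zero_mul, add_zero,
    mul_re, sub_zero, add_re, sub_im, natCast_im, natCast_re, sub_re, zero_add] at him' hre'
  have h2 : (s.2 : ℝ) = t.1 := by
    have : ((s.2 : ℝ) - t.1) * (A * α.im) = 0 := by linarith
    rcases mul_eq_zero.mp this with h | h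
    · linarith
    · exact absurd h (mul_ne_zero hAr him)
  have h3 : (A * s.1 + B * s.2 : ℝ) = δ - t.2 * c := by
    rw [← h2] at hre'
    linarith
  have h2' : s.2 = t.1 := by exact_mod_cast h2
  have h3' : A * s.1 + B * s.2 = δ + c * (-t.2) := by
    have : A * s.1 + B * s.2 = δ - t.2 * c := by exact_mod_cast h3
    linarith
  have hc0 : (c : ℤ) ≠ 0 := by omega
  constructor
  · ext
    · exact h2'
    · simp only [pr]
      rw [h3', Int.add_mul_ediv_left _ _ hc0, Int.ediv_eq_zero_of_lt h0 h1]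
      ring
  · simp only [dg]
    rw [h3', Int.add_mul_emod_self_left, Int.emod_eq_of_lt h0 h1]

omit [NeZero c] in
include hroot in
lemma norm_st (d : Fin c) (s : ℤ × ℤ) :
    ‖α‖ * ‖zc α B A (st A B c (d : ℕ) s)‖ ≤ ‖zc α B A s‖ + c := by
  rw [← norm_mul, mul_zc hroot]
  have hc : (0 : ℤ) < c := by have := d.2; omega
  have e : ((st A B c (d : ℕ) s).1 : ℂ) * A * α - ((st A B c (d : ℕ) s).2 : ℂ) * c =
      zc α B A s - ((A * s.1 + B * s.2 - c * ((A * s.1 + B * s.2 + (d : ℕ)) / c) : ℤ) : ℂ) := by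
    simp only [st, zc]
    push_cast
    ring
  rw [e]
  refine (norm_sub_le _ _).trans ?_
  gcongr
  rw [Complex.norm_intCast]
  have h1 := Int.emod_add_mul_ediv (A * s.1 + B * s.2 + (d : ℕ)) c
  have h2 := Int.emod_nonneg (A * s.1 + B * s.2 + (d : ℕ)) hc.ne'
  have h3 := Int.emod_lt_of_pos (A * s.1 + B * s.2 + (d : ℕ)) hc
  have h4 := d.2
  have h5 : |A * s.1 + B * s.2 - c * ((A * s.1 + B * s.2 + (d : ℕ)) / c)| ≤ c := by
    rw [abs_le]
    constructor
    · have : ((d : ℕ) : ℤ) < c := by exact_mod_cast h4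
      linarith
    · have : (0 : ℤ) ≤ ((d : ℕ) : ℤ) := by positivity
      linarith
  exact_mod_cast h5

/-- The second dual vector. -/
noncomputable def tau (α : ℂ) (A : ℤ) : ℂ := ((1 / (A * α.im) : ℝ) : ℂ) * I

/-- The first dual vector. -/
noncomputable def sig (α : ℂ) (A : ℤ) : ℂ := ((1 / A : ℝ) : ℂ) + ((α.re / (A * α.im) : ℝ) : ℂ) * I

lemma inner_tau (α : ℂ) (A : ℤ) (y : ℂ) : (inner ℝ (tau α A) y : ℝ) = y.im / (A * α.im) := by
  simp only [tau, Complex.inner, map_mul, conj_ofReal, conj_I, mul_re, mul_im, ofReal_re, ofReal_im,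
    neg_re, neg_im, I_re, I_im]
  ring

lemma inner_sig (α : ℂ) (A : ℤ) (y : ℂ) :
    (inner ℝ (sig α A) y : ℝ) = y.re / A + α.re * (y.im / (A * α.im)) := by
  simp only [sig, Complex.inner, map_add, map_mul, conj_ofReal, conj_I, mul_re, mul_im, ofReal_re,
    ofReal_im, neg_re, neg_im, I_re, I_im, add_re, add_im]
  ring

set_option linter.unusedSectionVars false in
omit [NeZero c] in
include him hA hroot in
lemma inner_tau_zc (s : ℤ × ℤ) : (inner ℝ (tau α A) (zc α B A s) : ℝ) = s.2 := by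
  have hAr : (A : ℝ) ≠ 0 := by exact_mod_cast hA.ne'
  rw [inner_tau]
  simp only [zc, add_im, mul_im, intCast_re, intCast_im, mul_zero, zero_mul, add_zero, zero_add]
  field_simp

omit [NeZero c] in
include him hA hroot in
lemma inner_sig_zc (s : ℤ × ℤ) : (inner ℝ (sig α A) (zc α B A s) : ℝ) = s.1 := by
  have hAr : (A : ℝ) ≠ 0 := by exact_mod_cast hA.ne'
  obtain ⟨hB, _⟩ := coeffs him hroot
  rw [inner_sig]
  simp only [zc, add_im, mul_im, intCast_re, intCast_im, mul_zero, zero_mul, add_zero, zero_add,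
    add_re, mul_re, sub_zero, hB]
  field_simp
  ring

omit [NeZero c] in
include him hA hroot in
lemma dual_indep (k₁ k₂ : ℤ) (h : k₁ ≠ 0 ∨ k₂ ≠ 0) : (k₁ : ℂ) * sig α A + k₂ * tau α A ≠ 0 := by
  intro h0
  have e : (k₁ : ℂ) * sig α A + k₂ * tau α A = (k₁ : ℝ) • sig α A + (k₂ : ℝ) • tau α A := by
    simp only [Complex.real_smul]
    push_cast
    rfl
  have h1 : (inner ℝ ((k₁ : ℂ) * sig α A + k₂ * tau α A) (zc α B A (k₁, k₂)) : ℝ) =
      (k₁ : ℝ) * k₁ + k₂ * k₂ := by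
    rw [e, inner_add_left, real_inner_smul_left, real_inner_smul_left,
      inner_sig_zc him hA hroot, inner_tau_zc him hA hroot]
  rw [h0, inner_zero_left] at h1
  have h2 : (k₁ : ℤ) * k₁ + k₂ * k₂ = 0 := by exact_mod_cast h1.symm
  have h3 : k₁ = 0 := by nlinarith [mul_self_nonneg k₁, mul_self_nonneg k₂]
  have h4 : k₂ = 0 := by nlinarith [mul_self_nonneg k₁, mul_self_nonneg k₂]
  rcases h with h | h
  · exact h h3
  · exact h h4

/-- Boxes. -/
noncomputable def Bx (b : ℕ) : Finset (ℤ × ℤ) := Finset.Icc (-(b : ℤ)) b ×ˢ Finset.Icc (-(b : ℤ)) b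

omit [NeZero c] in
include him hA hroot in
/-- Integer points near `y` lie in `⌊y⌋ + Bx b`. -/
lemma near_box (R : ℝ) (b : ℕ) (hb1 : ‖sig α A‖ * R + 1 ≤ b) (hb2 : ‖tau α A‖ * R + 1 ≤ b) (y : ℂ)
    (v : ℤ × ℤ) (h : ‖y - zc α B A v‖ ≤ R) :
    ∃ f ∈ Bx b, v = (⌊(inner ℝ (sig α A) y : ℝ)⌋, ⌊(inner ℝ (tau α A) y : ℝ)⌋) + f := by
  have key : ∀ (ξ : ℂ) (n : ℤ), ‖ξ‖ * R + 1 ≤ b → (inner ℝ ξ (zc α B A v) : ℝ) = n →
      |n - ⌊(inner ℝ ξ y : ℝ)⌋| ≤ b := by
    intro ξ n hb hn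
    have h1 : |(inner ℝ ξ (y - zc α B A v) : ℝ)| ≤ ‖ξ‖ * R :=
      (abs_real_inner_le_norm _ _).trans (mul_le_mul_of_nonneg_left h (norm_nonneg _))
    rw [inner_sub_right, hn, abs_le] at h1
    have h2 := Int.floor_le (inner ℝ ξ y : ℝ)
    have h3 := Int.lt_floor_add_one (inner ℝ ξ y : ℝ)
    have h4 : |(n : ℝ) - ⌊(inner ℝ ξ y : ℝ)⌋| ≤ b := by
      rw [abs_le]
      constructor <;> linarith [h1.1, h1.2]
    exact_mod_cast h4
  refine ⟨(v.1 - ⌊(inner ℝ (sig α A) y : ℝ)⌋, v.2 - ⌊(inner ℝ (tau α A) y : ℝ)⌋), ?_, ?_⟩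
  · have h1 := key (sig α A) v.1 hb1 (inner_sig_zc him hA hroot v)
    have h2 := key (tau α A) v.2 hb2 (inner_tau_zc him hA hroot v)
    rw [abs_le] at h1 h2
    simp only [Bx, Finset.mem_product, Finset.mem_Icc]
    exact ⟨h1, h2⟩
  · ext <;> simp

omit [NeZero c] in
include him hA hroot in
/-- A finite set containing a given box, closed under the difference chain. -/
lemma exists_closed (hα : 1 < ‖α‖) (b : ℕ) : ∃ K : Finset (ℤ × ℤ), Bx b ⊆ K ∧
    ∀ s ∈ K, ∀ d : Fin c, st A B c (d : ℕ) s ∈ K := by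
  set ρ : ℝ := c / (‖α‖ - 1) + ∑ f ∈ Bx b, ‖zc α B A f‖ with hρ
  have hα1 : 0 < ‖α‖ - 1 := by linarith
  have hρ1 : (c : ℝ) ≤ ρ * (‖α‖ - 1) := by
    rw [hρ, add_mul, div_mul_cancel₀ _ hα1.ne']
    have : 0 ≤ (∑ f ∈ Bx b, ‖zc α B A f‖) * (‖α‖ - 1) := by positivity
    linarith
  have hρ2 : ∀ f ∈ Bx b, ‖zc α B A f‖ ≤ ρ := by
    intro f hf
    have h1 := Finset.single_le_sum (f := fun f => ‖zc α B A f‖) (fun i _ => norm_nonneg _) hf
    have h2 : (0 : ℝ) ≤ c / (‖α‖ - 1) := by positivity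
    linarith
  have hfin : {s : ℤ × ℤ | ‖zc α B A s‖ ≤ ρ}.Finite := by
    obtain ⟨n, hn⟩ := exists_nat_ge (max (‖sig α A‖ * ρ) (‖tau α A‖ * ρ))
    apply Set.Finite.subset (Finset.finite_toSet (Bx n))
    intro s hs
    have hs' : ‖zc α B A s‖ ≤ ρ := hs
    have h1 : |(s.1 : ℝ)| ≤ n := by
      rw [← inner_sig_zc him hA hroot s]
      exact (abs_real_inner_le_norm _ _).trans ((mul_le_mul_of_nonneg_left hs' (norm_nonneg _)).trans
        ((le_max_left _ _).trans hn))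
    have h2 : |(s.2 : ℝ)| ≤ n := by
      rw [← inner_tau_zc him hA hroot s]
      exact (abs_real_inner_le_norm _ _).trans ((mul_le_mul_of_nonneg_left hs' (norm_nonneg _)).trans
        ((le_max_right _ _).trans hn))
    have h1' : |s.1| ≤ n := by exact_mod_cast h1
    have h2' : |s.2| ≤ n := by exact_mod_cast h2
    rw [abs_le] at h1' h2'
    simp only [Bx, Finset.coe_product, Finset.coe_Icc, Set.mem_prod, Set.mem_Icc]
    exact ⟨h1', h2'⟩
  refine ⟨hfin.toFinset, ?_, ?_⟩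
  · intro f hf
    rw [Set.Finite.mem_toFinset]
    exact hρ2 f hf
  · intro s hs d
    rw [Set.Finite.mem_toFinset] at hs ⊢
    have hs' : ‖zc α B A s‖ ≤ ρ := hs
    have h1 := norm_st hroot d s
    have h2 : ‖α‖ * ‖zc α B A (st A B c (d : ℕ) s)‖ ≤ ‖α‖ * ρ := by
      calc _ ≤ ρ + c := by linarith
        _ ≤ ‖α‖ * ρ := by linarith
    exact le_of_mul_le_mul_left h2 (by linarith)

end

end Pool.Agent.Hhelper82.Gf
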