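import Mathlib

set_option autoImplicit false

/-!
# A rounding controlled damped oscillator can always be driven to zero

For integers `0 < A < C`, `B ^ 2 < 4 A C`, from every pair `(z, z')` of integers one can reach
`(0, 0)` by steps `(z, z') → (z', z'')` with `|A z - B z' + C z''| < C`.
-/

namespace Pool.Agent.Hhelper82.Gf

/-- `R0 τ r z z'`: from `(z, z')` one can reach `(0,0)` by steps `(z, z') → (z', z'')` with
`|r z - 2 τ z' + z''| < 1`. -/
inductive R0 (τ r : ℝ) : ℤ → ℤ → Prop
  | zero : R0 τ r 0 0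
  | step (z z' z'' : ℤ) (h : |r * z - 2 * τ * z' + z''| < 1) (h' : R0 τ r z' z'') : R0 τ r z z'

lemma R0.neg {τ r : ℝ} {z z' : ℤ} (h : R0 τ r z z') : R0 τ r (-z) (-z') := by
  induction h with
  | zero => simpa using R0.zero
  | step z z' z'' h _ ih =>
    refine R0.step _ _ (-z'') ?_ ih
    push_cast
    rw [← abs_neg]
    have : -(r * -(z : ℝ) - 2 * τ * -(z' : ℝ) + -(z'' : ℝ)) = r * z - 2 * τ * z' + z'' := by ring
    rw [this]; exact h

section

variable {τ r : ℝ} (h0 : 0 ≤ τ) (h1 : τ < 1) (hr : r < 1) (hk : τ ^ 2 < r)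

include h0 h1 hk

/-- Small amplitude, offset nonpositive. -/
lemma lemA1 : ∀ N : ℕ, ∀ z z' : ℤ, 0 ≤ z → z ≤ N → (r - τ ^ 2) * z < 1 - τ →
    -1 < (z' : ℝ) - τ * z → (z' : ℝ) - τ * z ≤ 0 → R0 τ r z z' := by
  intro N
  induction N with
  | zero =>
    intro z z' hz hzN _ he1 he2
    have : z = 0 := by omega
    subst this
    have h1 : (-1 : ℝ) < z' := by simpa using he1
    have h2 : (z' : ℝ) ≤ 0 := by simpa using he2
    have h1' : (-1 : ℤ) < z' := by exact_mod_cast h1
    have h2' : z' ≤ 0 := by exact_mod_cast h2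
    have : z' = 0 := by omega
    subst this
    exact R0.zero
  | succ N ih =>
    intro z z' hz hzN hs he1 he2
    rcases eq_or_lt_of_le hz with hz0 | hz0
    · subst hz0
      have h1 : (-1 : ℝ) < z' := by simpa using he1
      have h2 : (z' : ℝ) ≤ 0 := by simpa using he2
      have h1' : (-1 : ℤ) < z' := by exact_mod_cast h1
      have h2' : z' ≤ 0 := by exact_mod_cast h2
      have : z' = 0 := by omega
      subst this
      exact R0.zero
    have hzr : (0 : ℝ) < z := by exact_mod_cast hz0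
    have hz'0 : (-1 : ℝ) < z' := by nlinarith
    have hz'0' : (0 : ℤ) ≤ z' := by
      have : (-1 : ℤ) < z' := by exact_mod_cast hz'0
      omega
    have hz'1 : (z' : ℝ) < z := by nlinarith
    have hz'1' : z' < z := by exact_mod_cast hz'1
    have hz'r : (0 : ℝ) ≤ z' := by exact_mod_cast hz'0'
    have hf1 := Int.floor_le (τ * z')
    have hf2 := Int.lt_floor_add_one (τ * z')
    refine R0.step z z' ⌊τ * z'⌋ ?_ (ih z' _ hz'0' (by omega) ?_ ?_ ?_)
    · rw [abs_lt]
      constructor <;> nlinarith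
    · nlinarith
    · linarith
    · linarith

/-- Small amplitude. -/
lemma lemA : ∀ N : ℕ, ∀ z z' : ℤ, 0 ≤ z → z ≤ N → (r - τ ^ 2) * z < 1 - τ →
    -1 < (z' : ℝ) - τ * z → (z' : ℝ) - τ * z ≤ 1 / 2 → R0 τ r z z' := by
  intro N
  induction N with
  | zero =>
    intro z z' hz hzN hs he1 he2
    have : z = 0 := by omega
    subst this
    have h1 : (-1 : ℝ) < z' := by simpa using he1
    have h2 : (z' : ℝ) ≤ 1 / 2 := by simpa using he2
    have h1' : (-1 : ℤ) < z' := by exact_mod_cast h1
    have h2' : z' < 1 := by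
      have : (z' : ℝ) < 1 := by linarith
      exact_mod_cast this
    have : z' = 0 := by omega
    subst this
    exact R0.zero
  | succ N ih =>
    intro z z' hz hzN hs he1 he2
    by_cases he : (z' : ℝ) - τ * z ≤ 0
    · exact lemA1 h0 h1 hk (N + 1) z z' hz (by exact_mod_cast hzN) hs he1 he
    push Not at he
    rcases eq_or_lt_of_le hz with hz0 | hz0
    · subst hz0
      have h1 : (-1 : ℝ) < z' := by simpa using he1
      have h2 : (z' : ℝ) ≤ 1 / 2 := by simpa using he2
      have h1' : (-1 : ℤ) < z' := by exact_mod_cast h1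
      have h2' : z' < 1 := by
        have : (z' : ℝ) < 1 := by linarith
        exact_mod_cast this
      have : z' = 0 := by omega
      subst this
      exact R0.zero
    have hzr : (0 : ℝ) < z := by exact_mod_cast hz0
    have hzr1 : (1 : ℝ) ≤ z := by exact_mod_cast hz0
    have hz'r : (0 : ℝ) ≤ z' := by nlinarith
    have hz'0' : (0 : ℤ) ≤ z' := by exact_mod_cast hz'r
    have hz'1' : z' ≤ z := by
      have : (z' : ℝ) < z + 1 := by nlinarith
      have : z' < z + 1 := by exact_mod_cast this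
      omega
    have hz'1 : (z' : ℝ) ≤ z := by exact_mod_cast hz'1'
    have hf1 := Int.floor_le (τ * z')
    have hf2 := Int.lt_floor_add_one (τ * z')
    set n := ⌊τ * z'⌋ with hn
    have hk0 : 0 < r - τ ^ 2 := by linarith
    have hkz' : (r - τ ^ 2) * z' ≤ (r - τ ^ 2) * z := mul_le_mul_of_nonneg_left hz'1 hk0.le
    have hkz : 0 < (r - τ ^ 2) * z := mul_pos hk0 hzr
    have hte : τ * ((z' : ℝ) - τ * z) ≤ 1 / 2 := by nlinarith
    have hte0 : 0 ≤ τ * ((z' : ℝ) - τ * z) := mul_nonneg h0 he.le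
    -- the quantity `{τ z'} + c`
    by_cases hc : (τ * z' - n) + (τ * (z' - τ * z) - (r - τ ^ 2) * z) < 1
    · refine R0.step z z' n ?_ (lemA1 h0 h1 hk (N + 1) z' n hz'0' (by omega) (by linarith) ?_ ?_)
      · rw [abs_lt]
        constructor
        · nlinarith
        · nlinarith
      · linarith
      · linarith
    · push Not at hc
      have hlt : z' < z := by
        rcases eq_or_lt_of_le hz'1' with h | h
        · exfalso
          subst h
          -- z' = z, so floor (τ z) = z - 1
          have hnz : n = z' - 1 := by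
            rw [hn, Int.floor_eq_iff]
            push_cast
            constructor
            · linarith
            · linarith
          rw [hnz] at hc
          push_cast at hc
          nlinarith
        · exact h
      refine R0.step z z' (n + 1) ?_ (ih z' (n + 1) hz'0' (by omega) (by linarith) ?_ ?_)
      · push_cast
        rw [abs_lt]
        constructor
        · nlinarith
        · nlinarith
      · push_cast
        linarith
      · push_cast
        nlinarith

end

section

variable {τ r : ℝ} (hr : r < 1) (hc0 : 0 < 1 - 2 * τ + r)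

include hr hc0

/-- Braking. -/
lemma lemB : ∀ N : ℕ, ∀ z u : ℤ, z ≤ N → 1 ≤ u → u * (u + 1) ≤ 2 * z →
    (1 - 2 * τ + r) * z < 1 → 2 * (1 - τ) * u ≤ 1 →
    (u = 1 ∨ (1 - 2 * τ + r) * (u + 3) ≤ 4 * (1 - τ)) → R0 τ r z (z - u) := by
  intro N
  induction N with
  | zero =>
    intro z u hz hu hzu
    exfalso
    push_cast at hz
    nlinarith
  | succ N ih =>
    intro z u hz hu hzu hcz hsu hcu
    have hur : (1 : ℝ) ≤ u := by exact_mod_cast hu
    have hz0 : 0 < z := by nlinarith
    have hzr : (0 : ℝ) < z := by exact_mod_cast hz0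
    have hcz0 : 0 < (1 - 2 * τ + r) * z := mul_pos hc0 hzr
    by_cases hroom : u * (u + 1) + 2 * u ≤ 2 * z
    · -- constant velocity
      refine R0.step z (z - u) (z - u - u) ?_ (ih (z - u) u ?_ hu ?_ ?_ hsu hcu)
      · push_cast
        have : r * (z : ℝ) - 2 * τ * (z - u) + (z - u - u) = (1 - 2 * τ + r) * z - 2 * (1 - τ) * u := by
          ring
        rw [this, abs_lt]
        have hsu0 : 0 < 1 - τ ∨ 1 - τ ≤ 0 := lt_or_ge _ _
        constructor
        · linarith
        · have : 0 ≤ (1 - τ) * u ∨ (1 - τ) * u < 0 := le_or_gt _ _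
          have h2 : 0 < 1 - τ := by linarith
          nlinarith
      · push_cast at hz ⊢; omega
      · linarith
      · push_cast
        nlinarith
    · push Not at hroom
      have h2 : 0 < 1 - τ := by linarith
      -- decelerate
      have hdec : (1 - 2 * τ + r) * z < 2 * (1 - τ) * u := by
        rcases hcu with h | h
        · subst h
          have : z = 1 := by omega
          subst this
          push_cast
          linarith
        · have hroom' : 2 * z < u * (u + 3) := by linarith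
          have hroomr : 2 * (z : ℝ) < u * (u + 3) := by exact_mod_cast hroom'
          have h3 : (1 - 2 * τ + r) * (2 * z) < (1 - 2 * τ + r) * (u * (u + 3)) :=
            mul_lt_mul_of_pos_left hroomr hc0
          have h4 : (1 - 2 * τ + r) * (u * (u + 3)) ≤ 4 * (1 - τ) * u := by
            have := mul_le_mul_of_nonneg_right h (by linarith : (0 : ℝ) ≤ u)
            linarith
          linarith
      have hstep : |r * (z : ℝ) - 2 * τ * ((z - u : ℤ) : ℝ) + ((z - u - (u - 1) : ℤ) : ℝ)| < 1 := by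
        push_cast
        have : r * (z : ℝ) - 2 * τ * (z - u) + (z - u - (u - 1)) =
            (1 - 2 * τ + r) * z - 2 * (1 - τ) * u + 1 := by
          ring
        rw [this, abs_lt]
        constructor
        · linarith
        · linarith
      rcases hcu with h | h
      · subst h
        have : z = 1 := by omega
        subst this
        refine R0.step 1 (1 - 1) (1 - 1 - (1 - 1)) hstep ?_
        simpa using R0.zero
      · rcases eq_or_lt_of_le hu with h' | h'
        · subst h'
          have : z = 1 := by omega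
          subst this
          refine R0.step 1 (1 - 1) (1 - 1 - (1 - 1)) hstep ?_
          simpa using R0.zero
        · refine R0.step z (z - u) (z - u - (u - 1)) hstep (ih (z - u) (u - 1) ?_ ?_ ?_ ?_ ?_ ?_)
          · push_cast at hz ⊢; omega
          · omega
          · nlinarith
          · push_cast
            nlinarith
          · push_cast
            nlinarith
          · right
            push_cast
            nlinarith

end

/-- The main case distinction. -/
lemma main_pos {τ r : ℝ} (h0 : 0 ≤ τ) (h1 : τ < 1) (hr : r < 1) (hk : τ ^ 2 < r)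
    (z z' n : ℤ) (hz : 0 < z)
    (he1 : -(1 / 2) ≤ (z' : ℝ) - τ * z) (he2 : (z' : ℝ) - τ * z ≤ 1 / 2)
    (hE : (r - τ ^ 2) * (z ^ 2 - z' ^ 2) + (z' - τ * z) ^ 2 ≤ 1 / 4)
    (hw1 : (n : ℝ) < 2 * τ * z' - r * z)
    (hn1 : (n : ℝ) ≤ τ * z') (hn2 : τ * z' ≤ n + 1) : R0 τ r z z' := by
  have hzr : (0 : ℝ) < z := by exact_mod_cast hz
  have hz1r : (1 : ℝ) ≤ z := by exact_mod_cast hz
  have hk0 : 0 < r - τ ^ 2 := by linarith
  have hσ : 0 < 1 - τ := by linarith
  have hc0 : 0 < 1 - 2 * τ + r := by nlinarith [sq_nonneg (1 - τ)]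
  by_cases hs : (r - τ ^ 2) * z < 1 - τ
  · have hzN : z ≤ (z.toNat : ℤ) := by omega
    exact lemA h0 h1 hk z.toNat z z' hz.le hzN hs (by linarith) he2
  push Not at hs
  have hz'1 : z' ≤ z := by
    have : (z' : ℝ) < z + 1 := by nlinarith
    have : z' < z + 1 := by exact_mod_cast this
    omega
  have hz'0 : 0 ≤ z' := by
    have : (-1 : ℝ) < z' := by nlinarith
    have : (-1 : ℤ) < z' := by exact_mod_cast this
    omega
  have hz'r : (0 : ℝ) ≤ z' := by exact_mod_cast hz'0
  rcases eq_or_lt_of_le hz'1 with h | h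
  · subst h
    have hn : n = z' - 1 := by
      have a1 : (n : ℝ) < z' := by nlinarith
      have a2 : (z' : ℝ) - 2 < n := by nlinarith
      have a1' : n < z' := by exact_mod_cast a1
      have a2' : z' - 2 < n := by exact_mod_cast a2
      omega
    subst hn
    push_cast at hw1
    have hcz : (1 - 2 * τ + r) * z' < 1 := by linarith
    have hcz0 : 0 < (1 - 2 * τ + r) * z' := mul_pos hc0 hzr
    refine R0.step z' z' (z' - 1) ?_ ?_
    · push_cast
      rw [abs_lt]
      constructor <;> linarith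
    · refine lemB hr hc0 z'.toNat z' 1 (by omega) le_rfl (by omega) hcz ?_ (Or.inl rfl)
      push_cast
      nlinarith
  · obtain ⟨v, hv⟩ : ∃ v, v = z - z' := ⟨_, rfl⟩
    have hv1 : 1 ≤ v := by omega
    have hz' : z' = z - v := by omega
    have hvr : (1 : ℝ) ≤ v := by exact_mod_cast hv1
    have hz'v : (z' : ℝ) = z - v := by rw [hz']; push_cast; ring
    rw [hz']
    rw [hz'v] at he1 he2 hE hz'r
    -- key estimates
    have k1 : (r - τ ^ 2) * (v * z) ≤ 1 / 4 := by
      have : (r - τ ^ 2) * (v * z) ≤ (r - τ ^ 2) * (v * (z + (z - v))) := by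
        apply mul_le_mul_of_nonneg_left _ hk0.le
        apply mul_le_mul_of_nonneg_left _ (by linarith)
        linarith
      nlinarith [sq_nonneg ((z : ℝ) - v - τ * z)]
    have k2 : (1 - τ) * v ≤ 1 / 4 := by
      have := mul_le_mul_of_nonneg_right hs (by linarith : (0 : ℝ) ≤ v)
      linarith
    have k3 : (v : ℝ) - 1 / 2 ≤ (1 - τ) * z := by linarith
    have k4 : (1 - τ) * z ≤ v + 1 / 2 := by linarith
    have k5 : (v : ℝ) * (v - 1 / 2) ≤ z / 4 := by
      have a1 := mul_le_mul_of_nonneg_left k3 (by linarith : (0 : ℝ) ≤ v)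
      have a2 := mul_le_mul_of_nonneg_right k2 hzr.le
      linarith
    have k6 : (r - τ ^ 2) * z ≤ 1 / 4 := by
      have : (r - τ ^ 2) * z ≤ (r - τ ^ 2) * (v * z) := by
        apply mul_le_mul_of_nonneg_left _ hk0.le
        nlinarith
      linarith
    have k7 : (1 - τ) ^ 2 * z ≤ 3 / 8 := by
      have a1 := mul_le_mul_of_nonneg_left k4 hσ.le
      nlinarith
    refine lemB hr hc0 z.toNat z v (by omega) hv1 ?_ ?_ ?_ ?_
    · have : (v : ℝ) * (v + 1) ≤ 2 * z := by nlinarith
      exact_mod_cast this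
    · nlinarith
    · linarith
    · rcases eq_or_lt_of_le hv1 with h' | h'
      · left; exact h'.symm
      · right
        have hv2 : (2 : ℝ) ≤ v := by exact_mod_cast h'
        -- κ₀ v ≤ σ / 6
        have k8 : (r - τ ^ 2) * v * (v - 1 / 2) ≤ (1 - τ) / 4 := by
          have a1 := mul_le_mul_of_nonneg_left k3 (by positivity : 0 ≤ (r - τ ^ 2) * v)
          have a2 := mul_le_mul_of_nonneg_right k1 hσ.le
          nlinarith
        have hkv : 0 ≤ (r - τ ^ 2) * v := by positivity
        have k9 : (r - τ ^ 2) * v * (3 / 2) ≤ (1 - τ) / 4 := by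
          have : (r - τ ^ 2) * v * (3 / 2) ≤ (r - τ ^ 2) * v * (v - 1 / 2) :=
            mul_le_mul_of_nonneg_left (by linarith) hkv
          linarith
        have k10 : (r - τ ^ 2) * (v + 3) ≤ (r - τ ^ 2) * v * (5 / 2) := by nlinarith
        have k11 : (1 - τ) ^ 2 * (v + 3) ≤ (1 - τ) * (5 / 8) := by
          have a1 : (1 - τ) * (v + 3) ≤ 5 / 8 := by nlinarith
          have a2 := mul_le_mul_of_nonneg_left a1 hσ.le
          nlinarith
        nlinarith

/-- Every pair of integers can be driven to `(0,0)`. -/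
theorem reach_nonneg (A B C : ℤ) (hA : 0 < A) (hAC : A < C) (hB : 0 ≤ B) (hd : B ^ 2 < 4 * A * C)
    (z z' : ℤ) : R0 ((B : ℝ) / (2 * C)) ((A : ℝ) / C) z z' := by
  set τ : ℝ := (B : ℝ) / (2 * C) with hτ
  set r : ℝ := (A : ℝ) / C with hrdef
  have hC : 0 < C := hA.trans hAC
  have hCr : (0 : ℝ) < C := by exact_mod_cast hC
  have hAr : (0 : ℝ) < A := by exact_mod_cast hA
  have hACr : (A : ℝ) < C := by exact_mod_cast hAC
  have hBr : (0 : ℝ) ≤ B := by exact_mod_cast hB
  have hdr : (B : ℝ) ^ 2 < 4 * A * C := by exact_mod_cast hd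
  have h0 : 0 ≤ τ := by positivity
  have hr0 : 0 < r := by positivity
  have hr : r < 1 := by rw [hrdef, div_lt_one hCr]; exact hACr
  have hk : τ ^ 2 < r := by
    rw [hτ, hrdef, div_pow, div_lt_div_iff₀ (by positivity) hCr]
    have := mul_lt_mul_of_pos_right hdr hCr
    nlinarith
  have h1 : τ < 1 := by nlinarith
  have hk0 : 0 < r - τ ^ 2 := by linarith
  by_contra hcon
  -- integer valued energy
  let E : ℤ × ℤ → ℤ := fun s => C * s.2 ^ 2 - B * s.1 * s.2 + A * s.1 ^ 2
  have hEr : ∀ s : ℤ × ℤ, (E s : ℝ) = C * ((r - τ ^ 2) * s.1 ^ 2 + (s.2 - τ * s.1) ^ 2) := by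
    intro s
    have e1 : (C : ℝ) * r = A := by rw [hrdef]; field_simp
    have e2 : (C : ℝ) * τ * 2 = B := by rw [hτ]; field_simp
    have : (E s : ℝ) = C * s.2 ^ 2 - B * s.1 * s.2 + A * s.1 ^ 2 := by
      simp only [E]; push_cast; ring
    rw [this, ← e1, ← e2]; ring
  have hE0 : ∀ s, 0 ≤ E s := by
    intro s
    have : (0 : ℝ) ≤ E s := by rw [hEr]; positivity
    exact_mod_cast this
  let S : Set (ℤ × ℤ) := {s | ¬ R0 τ r s.1 s.2}
  have hS : S.Nonempty := ⟨(z, z'), hcon⟩
  obtain ⟨⟨y, y'⟩, hm, hmin⟩ : ∃ m ∈ S, ∀ t ∈ S, E m ≤ E t := by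
    let m := Function.argminOn (fun s => (E s).toNat) S hS
    refine ⟨m, Function.argminOn_mem _ _ hS, fun t ht => ?_⟩
    have := Function.argminOn_le (fun s => (E s).toNat) S ht
    have h2 := hE0 m
    have h3 := hE0 t
    have h4 : (E m).toNat ≤ (E t).toNat := this
    omega
  have hminr : ∀ x x' : ℤ, ¬ R0 τ r x x' →
      (r - τ ^ 2) * y ^ 2 + (y' - τ * y) ^ 2 ≤ (r - τ ^ 2) * x ^ 2 + (x' - τ * x) ^ 2 := by
    intro x x' hx
    have := hmin (x, x') hx
    have h2 : (E (y, y') : ℝ) ≤ E (x, x') := by exact_mod_cast this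
    rw [hEr, hEr] at h2
    exact le_of_mul_le_mul_left h2 hCr
  have hstep : ∀ x : ℤ, |r * y - 2 * τ * y' + x| < 1 → ¬ R0 τ r y' x := by
    intro x hx h
    exact hm (R0.step y y' x hx h)
  have hne : (y, y') ≠ (0, 0) := by
    intro h
    rw [Prod.mk.injEq] at h
    apply hm
    simp only [h.1, h.2]
    exact R0.zero
  -- energy positive
  have hEpos : 0 < (r - τ ^ 2) * (y : ℝ) ^ 2 + (y' - τ * y) ^ 2 := by
    by_contra hle
    push Not at hle
    have a1 : (r - τ ^ 2) * (y : ℝ) ^ 2 = 0 := by nlinarith [sq_nonneg ((y' : ℝ) - τ * y), mul_nonneg hk0.le (sq_nonneg (y : ℝ))]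
    have a2 : (y : ℝ) = 0 := by
      rcases mul_eq_zero.mp a1 with h | h
      · linarith
      · exact pow_eq_zero_iff (two_ne_zero) |>.mp h
    have a3 : (y' : ℝ) = 0 := by
      rw [a2] at hle
      nlinarith
    apply hne
    rw [Prod.mk.injEq]
    exact ⟨by exact_mod_cast a2, by exact_mod_cast a3⟩
  set w : ℝ := 2 * τ * y' - r * y with hw
  obtain ⟨n, hn⟩ : ∃ n, n = ⌊w⌋ := ⟨_, rfl⟩
  have hn1 : (n : ℝ) ≤ w := by rw [hn]; exact Int.floor_le w
  have hn2 : w < n + 1 := by rw [hn]; exact Int.lt_floor_add_one w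
  have hEw : (r - τ ^ 2) * (y' : ℝ) ^ 2 + (w - τ * y') ^ 2 =
      r * ((r - τ ^ 2) * (y : ℝ) ^ 2 + (y' - τ * y) ^ 2) := by rw [hw]; ring
  have hElt : (r - τ ^ 2) * (y' : ℝ) ^ 2 + (w - τ * y') ^ 2 <
      (r - τ ^ 2) * (y : ℝ) ^ 2 + (y' - τ * y) ^ 2 := by
    rw [hEw]
    nlinarith
  -- n is always allowed
  have hEn := hminr y' n (hstep n (by rw [abs_lt]; constructor <;> linarith))
  have hnw : (n : ℝ) < w := by
    rcases eq_or_lt_of_le hn1 with h | h
    · exfalso
      rw [h] at hEn
      linarith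
    · exact h
  have hEn1 := hminr y' (n + 1) (hstep (n + 1) (by push_cast; rw [abs_lt]; constructor <;> linarith))
  push_cast at hEn1
  have hn3 : (n : ℝ) ≤ τ * y' := by
    by_contra h
    push Not at h
    nlinarith
  have hn4 : τ * y' ≤ n + 1 := by
    by_contra h
    push Not at h
    nlinarith
  -- |y'| ≤ |y|
  have hyy : (y' : ℝ) ^ 2 ≤ y ^ 2 := by
    by_contra h
    push Not at h
    have e1 : (r - τ ^ 2) * (y : ℝ) ^ 2 + (y' - τ * y) ^ 2 -
        ((r - τ ^ 2) * (y' : ℝ) ^ 2 + (y - τ * y') ^ 2) = (y' ^ 2 - y ^ 2) * (1 - r) := by ring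
    have e2 : 0 < ((y' : ℝ) ^ 2 - y ^ 2) * (1 - r) := mul_pos (by linarith) (by linarith)
    rcases le_or_gt y n with hyn | hyn
    · have hynr : (y : ℝ) ≤ n := by exact_mod_cast hyn
      nlinarith
    · have hynr : (n : ℝ) + 1 ≤ y := by exact_mod_cast hyn
      nlinarith
  -- the offset
  have hE4 : (r - τ ^ 2) * ((y : ℝ) ^ 2 - y' ^ 2) + (y' - τ * y) ^ 2 ≤ 1 / 4 := by
    rcases le_or_gt (τ * y') (n + 1 / 2) with h | h
    · nlinarith
    · nlinarith
  have he4 : ((y' : ℝ) - τ * y) ^ 2 ≤ 1 / 4 := by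
    nlinarith [mul_nonneg hk0.le (by linarith : (0 : ℝ) ≤ (y : ℝ) ^ 2 - y' ^ 2)]
  have he5 : |(y' : ℝ) - τ * y| ≤ 1 / 2 := by
    apply abs_le_of_sq_le_sq _ (by norm_num)
    linarith
  rw [abs_le] at he5
  have hy0 : y ≠ 0 := by
    intro h
    have : (y' : ℝ) ^ 2 ≤ 0 := by rw [h] at hyy; simpa using hyy
    have h2 : (y' : ℝ) = 0 := by nlinarith
    apply hne
    rw [Prod.mk.injEq]
    exact ⟨h, by exact_mod_cast h2⟩
  rcases lt_or_gt_of_ne hy0 with hneg | hpos
  · have := main_pos h0 h1 hr hk (-y) (-y') (-n - 1) (by omega)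
      (by push_cast; linarith) (by push_cast; linarith) (by push_cast; linarith)
      (by push_cast; linarith) (by push_cast; linarith) (by push_cast; linarith)
    have h2 := this.neg
    rw [neg_neg, neg_neg] at h2
    exact hm h2
  · exact hm (main_pos h0 h1 hr hk y y' n hpos he5.1 he5.2 hE4 hnw hn3 hn4)

end Pool.Agent.Hhelper82.Gf
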