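import Pool.Agent.Hhelper82.Gf.Gauss
import Pool.Agent.Hhelper82.Gf.Digits

set_option autoImplicit false

/-!
# Equidistribution of `α ^ n x`
-/

open MeasureTheory Filter Topology Finset Complex
open scoped ENNReal NNReal ComplexConjugate

namespace Pool.Agent.Hhelper82.Gf

open Pool.Lib.Erg (avg)

/-- The Haar probability measure on the two dimensional torus. -/
noncomputable def tm : Measure (UnitAddTorus (Fin 2)) :=
  Measure.pi (fun _ => AddCircle.haarAddCircle)

instance : IsProbabilityMeasure tm := by unfold tm; infer_instance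

lemma int_fourier (n : ℤ) (hn : n ≠ 0) :
    ∫ x : AddCircle (1 : ℝ), (fourier n x : ℂ) ∂AddCircle.haarAddCircle = 0 :=
  integral_eq_zero_of_add_right_eq_neg (μ := AddCircle.haarAddCircle)
    (fourier_add_half_inv_index hn one_pos)

lemma int_mFourier (k : Fin 2 → ℤ) (hk : k ≠ 0) :
    ∫ x, UnitAddTorus.mFourier k x ∂tm = 0 := by
  unfold tm
  simp only [UnitAddTorus.mFourier, ContinuousMap.coe_mk]
  rw [integral_fintype_prod_eq_prod (f := fun i (x : AddCircle (1 : ℝ)) => (fourier (k i) x : ℂ))]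
  obtain ⟨i, hi⟩ := Function.ne_iff.mp hk
  exact Finset.prod_eq_zero (Finset.mem_univ i) (int_fourier _ hi)

lemma avg_const_of_ne (a : ℂ) (M : ℕ) (hM : 0 < M) : avg (fun _ => a) M = a := by
  unfold Pool.Lib.Erg.avg
  rw [Finset.sum_const, Finset.card_range, nsmul_eq_mul, ← mul_assoc, inv_mul_cancel₀, one_mul]
  exact_mod_cast hM.ne'

lemma avg_add' (a b : ℕ → ℂ) (M : ℕ) : avg (fun n => a n + b n) M = avg a M + avg b M := by
  unfold Pool.Lib.Erg.avg
  rw [Finset.sum_add_distrib, mul_add]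

lemma avg_smul' (c : ℂ) (a : ℕ → ℂ) (M : ℕ) : avg (fun n => c * a n) M = c * avg a M := by
  unfold Pool.Lib.Erg.avg
  rw [← Finset.mul_sum]
  ring

lemma weyl (u : ℕ → UnitAddTorus (Fin 2))
    (h : ∀ k : Fin 2 → ℤ, k ≠ 0 → Tendsto (avg fun n => UnitAddTorus.mFourier k (u n)) atTop (𝓝 0))
    (F : C(UnitAddTorus (Fin 2), ℂ)) :
    Tendsto (avg fun n => F (u n)) atTop (𝓝 (∫ x, F x ∂tm)) := by
  have hi : ∀ G : C(UnitAddTorus (Fin 2), ℂ), Integrable (fun x => G x) tm := by
    intro G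
    apply Integrable.of_bound G.continuous.aestronglyMeasurable ‖G‖
    exact Eventually.of_forall fun x => G.norm_coe_le_norm x
  have hspan : ∀ G ∈ Submodule.span ℂ (Set.range (UnitAddTorus.mFourier (d := Fin 2))),
      Tendsto (avg fun n => G (u n)) atTop (𝓝 (∫ x, G x ∂tm)) := by
    intro G hG
    induction hG using Submodule.span_induction with
    | mem G hG =>
      obtain ⟨k, rfl⟩ := hG
      by_cases hk : k = 0
      · subst hk
        rw [UnitAddTorus.mFourier_zero]
        simp only [ContinuousMap.one_apply, integral_const, probReal_univ, mul_one,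
          Complex.real_smul, Complex.ofReal_one]
        apply tendsto_const_nhds.congr'
        filter_upwards [eventually_gt_atTop 0] with M hM
        rw [avg_const_of_ne _ _ hM]
      · rw [int_mFourier k hk]
        exact h k hk
    | zero =>
      simp only [ContinuousMap.zero_apply, integral_zero]
      apply tendsto_const_nhds.congr'
      filter_upwards [eventually_gt_atTop 0] with M hM
      rw [avg_const_of_ne _ _ hM]
    | add G H _ _ hG hH =>
      simp only [ContinuousMap.add_apply]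
      rw [integral_add (hi G) (hi H)]
      have := hG.add hH
      refine this.congr fun M => ?_
      rw [avg_add']
    | smul c G _ hG =>
      simp only [ContinuousMap.smul_apply, smul_eq_mul]
      rw [integral_const_mul]
      have := hG.const_mul c
      refine this.congr fun M => ?_
      rw [avg_smul']
  rw [Metric.tendsto_atTop]
  intro ε hε
  have hF : F ∈ (Submodule.span ℂ (Set.range (UnitAddTorus.mFourier (d := Fin 2)))).topologicalClosure := by
    rw [UnitAddTorus.span_mFourier_closure_eq_top]; trivial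
  have hF' : F ∈ closure ((Submodule.span ℂ (Set.range (UnitAddTorus.mFourier (d := Fin 2)))) : Set _) := hF
  rw [Metric.mem_closure_iff] at hF'
  obtain ⟨G, hG, hFG⟩ := hF' (ε / 3) (by positivity)
  obtain ⟨N, hN⟩ := Metric.tendsto_atTop.mp (hspan G hG) (ε / 3) (by positivity)
  refine ⟨N, fun M hM => ?_⟩
  have h1 : ∀ x, ‖F x - G x‖ ≤ ‖F - G‖ := fun x => (F - G).norm_coe_le_norm x
  have hFG' : ‖F - G‖ < ε / 3 := by rwa [dist_eq_norm] at hFG
  have h2 : ‖avg (fun n => F (u n)) M - avg (fun n => G (u n)) M‖ ≤ ‖F - G‖ := by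
    have : avg (fun n => F (u n)) M - avg (fun n => G (u n)) M = avg (fun n => F (u n) - G (u n)) M := by
      unfold Pool.Lib.Erg.avg
      rw [Finset.sum_sub_distrib, mul_sub]
    rw [this]
    exact Pool.Lib.Erg.avg_bound _ _ (fun n => h1 _) M
  have h3 : ‖∫ x, G x ∂tm - ∫ x, F x ∂tm‖ ≤ ‖F - G‖ := by
    rw [← integral_sub (hi G) (hi F)]
    have := norm_integral_le_of_norm_le_const (μ := tm) (f := fun x => G x - F x) (C := ‖F - G‖)
      (Eventually.of_forall fun x => by rw [norm_sub_rev]; exact h1 x)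
    simpa using this
  have h4 := hN M hM
  rw [dist_eq_norm] at h4 ⊢
  calc ‖avg (fun n => F (u n)) M - ∫ x, F x ∂tm‖
      = ‖(avg (fun n => F (u n)) M - avg (fun n => G (u n)) M) +
        (avg (fun n => G (u n)) M - ∫ x, G x ∂tm) + (∫ x, G x ∂tm - ∫ x, F x ∂tm)‖ := by
        congr 1; ring
    _ ≤ ‖avg (fun n => F (u n)) M - avg (fun n => G (u n)) M‖ +
        ‖avg (fun n => G (u n)) M - ∫ x, G x ∂tm‖ + ‖∫ x, G x ∂tm - ∫ x, F x ∂tm‖ :=
        norm_add₃_le
    _ < ε := by linarith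

open Classical in
lemma count_closed (u : ℕ → UnitAddTorus (Fin 2))
    (h : ∀ k : Fin 2 → ℤ, k ≠ 0 → Tendsto (avg fun n => UnitAddTorus.mFourier k (u n)) atTop (𝓝 0))
    (E : Set (UnitAddTorus (Fin 2))) (hE : IsClosed E) (ε : ℝ) (hε : 0 < ε) :
    ∀ᶠ M : ℕ in atTop, (((range M).filter (fun n => u n ∈ E)).card : ℝ) ≤ (tm.real E + ε) * M := by
  have hlim := tendsto_integral_thickenedIndicator_of_isClosed tm hE
    (δs := fun n : ℕ => 1 / ((n : ℝ) + 1)) (fun n => by positivity)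
    tendsto_one_div_add_atTop_nhds_zero_nat
  obtain ⟨n0, hn0⟩ := ((Metric.tendsto_atTop.mp hlim) (ε / 2) (by positivity))
  have hn0' := hn0 n0 le_rfl
  have hδ : (0 : ℝ) < 1 / ((n0 : ℝ) + 1) := by positivity
  set f : UnitAddTorus (Fin 2) → ℝ := fun x => (thickenedIndicator hδ E x : ℝ) with hf
  have hfc : Continuous f := by rw [hf]; fun_prop
  have hf1 : ∀ x ∈ E, f x = 1 := by
    intro x hx
    rw [hf]
    simp only
    rw [thickenedIndicator_one hδ E hx]
    simp
  have hf0 : ∀ x, 0 ≤ f x := fun x => NNReal.coe_nonneg _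
  let F : C(UnitAddTorus (Fin 2), ℂ) := ⟨fun x => (f x : ℂ), by fun_prop⟩
  have hw := weyl u h F
  have hint : ∫ x, F x ∂tm = ((∫ x, f x ∂tm : ℝ) : ℂ) := by
    rw [← integral_complex_ofReal]; rfl
  rw [hint] at hw
  have hfi : ∫ x, f x ∂tm ≤ tm.real E + ε / 2 := by
    rw [Real.dist_eq, abs_lt] at hn0'
    linarith [hn0'.2]
  obtain ⟨N, hN⟩ := Metric.tendsto_atTop.mp hw (ε / 2) (by positivity)
  filter_upwards [eventually_ge_atTop N, eventually_gt_atTop 0] with M hM hM0
  have h4 := hN M hM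
  have hMr : (0 : ℝ) < M := by exact_mod_cast hM0
  have h5 : avg (fun n => F (u n)) M = (((M : ℝ)⁻¹ * ∑ n ∈ range M, f (u n) : ℝ) : ℂ) := by
    unfold Pool.Lib.Erg.avg
    push_cast
    rfl
  rw [h5, Complex.dist_eq, ← Complex.ofReal_sub, Complex.norm_real, Real.norm_eq_abs, abs_lt] at h4
  have h6 : (M : ℝ)⁻¹ * ∑ n ∈ range M, f (u n) ≤ tm.real E + ε := by linarith [h4.2]
  rw [inv_mul_le_iff₀ hMr] at h6
  calc (((range M).filter (fun n => u n ∈ E)).card : ℝ) = ∑ n ∈ (range M).filter (fun n => u n ∈ E), 1 := by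
        simp
    _ = ∑ n ∈ (range M).filter (fun n => u n ∈ E), f (u n) := by
        apply Finset.sum_congr rfl
        intro n hn
        rw [hf1 _ (Finset.mem_filter.mp hn).2]
    _ ≤ ∑ n ∈ range M, f (u n) :=
        Finset.sum_le_sum_of_subset_of_nonneg (Finset.filter_subset _ _) (fun i _ _ => hf0 _)
    _ ≤ M * (tm.real E + ε) := h6
    _ = _ := mul_comm _ _

lemma tm_box (c : Fin 2 → AddCircle (1 : ℝ)) (ρ : ℝ) (h0 : 0 ≤ ρ) (h1 : 2 * ρ ≤ 1) :
    tm.real (Set.univ.pi fun i => Metric.closedBall (c i) ρ) = (2 * ρ) ^ 2 := by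
  have hv : (volume : Measure (AddCircle (1 : ℝ))) = AddCircle.haarAddCircle := by
    rw [AddCircle.volume_eq_smul_haarAddCircle, ENNReal.ofReal_one, one_smul]
  unfold tm
  rw [Measure.real_def, Measure.pi_pi]
  simp_rw [← hv, AddCircle.volume_closedBall, min_eq_right h1]
  rw [Finset.prod_const, Finset.card_univ, Fintype.card_fin, ENNReal.toReal_pow,
    ENNReal.toReal_ofReal (by positivity)]

lemma coe_mem_ball (q : ℕ) (hq : 0 < q) (s : ℝ) (g : ZMod q) [NeZero q] (h : ((⌊s⌋ : ℤ) : ZMod q) = g) :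
    ((s / q : ℝ) : AddCircle (1 : ℝ)) ∈
      Metric.closedBall (((g.val + 1 / 2) / q : ℝ) : AddCircle (1 : ℝ)) (1 / (2 * q)) := by
  have hqr : (0 : ℝ) < q := by exact_mod_cast hq
  have h1 : ((g.val : ℤ) : ZMod q) = ((⌊s⌋ : ℤ) : ZMod q) := by rw [h]; simp
  rw [ZMod.intCast_eq_intCast_iff_dvd_sub] at h1
  obtain ⟨k, hk⟩ := h1
  rw [Metric.mem_closedBall, dist_eq_norm, ← AddCircle.coe_sub]
  have h2 : ((s / q - (g.val + 1 / 2) / q : ℝ) : AddCircle (1 : ℝ)) =
      (((Int.fract s - 1 / 2) / q : ℝ) : AddCircle (1 : ℝ)) := by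
    have e : s / q - (g.val + 1 / 2) / q = (Int.fract s - 1 / 2) / q + k := by
      have hk' : ((⌊s⌋ : ℤ) : ℝ) - g.val = q * k := by exact_mod_cast hk
      rw [Int.fract]
      field_simp
      linarith
    rw [e, AddCircle.coe_add]
    have : ((k : ℝ) : AddCircle (1 : ℝ)) = 0 := by
      rw [AddCircle.coe_eq_zero_iff]
      exact ⟨k, by simp⟩
    rw [this, add_zero]
  rw [h2]
  refine (QuotientAddGroup.norm_mk_le_norm).trans ?_
  rw [Real.norm_eq_abs, abs_div, abs_of_pos hqr, div_le_div_iff₀ hqr (by positivity)]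
  have h3 : |Int.fract s - 1 / 2| ≤ 1 / 2 := by
    rw [abs_le]
    constructor <;> linarith [Int.fract_nonneg s, Int.fract_lt_one s]
  nlinarith

open Classical in
/-- `y` is equidistributed: the integer parts of the coordinates of `α ^ n y` are equidistributed
modulo all `q` (upper bounds). -/
def Equi (α σ τ y : ℂ) : Prop :=
  ∀ (q : ℕ) [NeZero q] (g : ZMod q × ZMod q) (ε : ℝ), 0 < ε →
      ∀ᶠ M : ℕ in atTop, (((range M).filter (fun n =>
        cls q (⌊(inner ℝ σ (α ^ n * y) : ℝ)⌋, ⌊(inner ℝ τ (α ^ n * y) : ℝ)⌋) = g)).card : ℝ) ≤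
        (1 / (q : ℝ) ^ 2 + ε) * M

lemma Yf_shift (α ξ a : ℂ) (n : ℕ) (x : ℂ) : Yf α (conj a * ξ) n x = Yf α ξ n (a * x) := by
  unfold Yf
  rw [← inner_mul_right', show a * (α ^ n * x) = α ^ n * (a * x) by ring]

open Classical in
/-- Almost everywhere equidistribution. -/
theorem ae_equi {α : ℂ} (hα : 1 < ‖α‖) (σ τ : ℂ)
    (hστ : ∀ k₁ k₂ : ℤ, (k₁ ≠ 0 ∨ k₂ ≠ 0) → (k₁ : ℂ) * σ + k₂ * τ ≠ 0) (a : ℂ) (ha : a ≠ 0) :
    ∀ᵐ x : ℂ, Equi α σ τ (a * x) := by
  have hae : ∀ᵐ x : ℂ, ∀ (q : ℕ) (k : Fin 2 → ℤ), q ≠ 0 → k ≠ 0 →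
      Tendsto (avg fun n => Yf α ((2 * Real.pi / q : ℝ) * (k 0 * σ + k 1 * τ)) n (a * x))
        atTop (𝓝 0) := by
    rw [ae_all_iff]
    intro q
    rw [ae_all_iff]
    intro k
    by_cases hq : q = 0
    · exact Eventually.of_forall fun x h => absurd hq h
    by_cases hk : k = 0
    · exact Eventually.of_forall fun x _ h => absurd hk h
    have h1 : ((2 * Real.pi / q : ℝ) : ℂ) * (k 0 * σ + k 1 * τ) ≠ 0 := by
      apply mul_ne_zero
      · have : (0 : ℝ) < 2 * Real.pi / q := by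
          have : (0 : ℝ) < q := by exact_mod_cast Nat.pos_of_ne_zero hq
          have := Real.pi_pos
          positivity
        exact_mod_cast this.ne'
      · apply hστ
        by_contra hcon
        push Not at hcon
        apply hk
        ext i
        fin_cases i
        · exact hcon.1
        · exact hcon.2
    have h2 : conj a * (((2 * Real.pi / q : ℝ) : ℂ) * (k 0 * σ + k 1 * τ)) ≠ 0 :=
      mul_ne_zero (by simpa using ha) h1
    filter_upwards [ae_avg_zero hα h2] with x hx _ _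
    simp_rw [Yf_shift] at hx
    exact hx
  filter_upwards [hae] with x hx
  intro q _ g ε hε
  have hq : q ≠ 0 := NeZero.ne q
  have hq0 : 0 < q := NeZero.pos q
  have hqr : (0 : ℝ) < q := by exact_mod_cast hq0
  obtain ⟨y, hy⟩ : ∃ y, y = a * x := ⟨_, rfl⟩
  rw [← hy] at hx ⊢
  set u : ℕ → UnitAddTorus (Fin 2) := fun n i =>
    (((if i = 0 then (inner ℝ σ (α ^ n * y) : ℝ) else (inner ℝ τ (α ^ n * y) : ℝ)) / q : ℝ) :
      AddCircle (1 : ℝ)) with hu
  have hchar : ∀ k : Fin 2 → ℤ, k ≠ 0 →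
      Tendsto (avg fun n => UnitAddTorus.mFourier k (u n)) atTop (𝓝 0) := by
    intro k hk
    refine (hx q k hq hk).congr fun M => ?_
    congr 1
    funext n
    simp only [UnitAddTorus.mFourier, ContinuousMap.coe_mk, Fin.prod_univ_two, hu, if_true,
      Fin.isValue, one_ne_zero, if_false]
    rw [fourier_coe_apply, fourier_coe_apply, ← Complex.exp_add]
    unfold Yf
    congr 1
    have e : (inner ℝ ((2 * Real.pi / q : ℝ) * (k 0 * σ + k 1 * τ) : ℂ) (α ^ n * y) : ℝ) =
        (2 * Real.pi / q) * (k 0 * inner ℝ σ (α ^ n * y) + k 1 * inner ℝ τ (α ^ n * y)) := by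
      have e1 : ((2 * Real.pi / q : ℝ) * (k 0 * σ + k 1 * τ) : ℂ) =
          (2 * Real.pi / q : ℝ) • ((k 0 : ℝ) • σ + (k 1 : ℝ) • τ) := by
        simp only [Complex.real_smul]
        push_cast
        ring
      rw [e1, real_inner_smul_left, inner_add_left, real_inner_smul_left, real_inner_smul_left]
    rw [e]
    push_cast
    ring
  set c : Fin 2 → AddCircle (1 : ℝ) := fun i =>
    ((((if i = 0 then g.1.val else g.2.val : ℕ) + 1 / 2) / q : ℝ) : AddCircle (1 : ℝ)) with hc
  have hcl : IsClosed (Set.univ.pi fun i => Metric.closedBall (c i) (1 / (2 * (q : ℝ)))) :=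
    isClosed_set_pi fun i _ => Metric.isClosed_closedBall
  have hcount := count_closed u hchar _ hcl ε hε
  rw [tm_box c (1 / (2 * (q : ℝ))) (by positivity) (by
    have : (1 : ℝ) ≤ q := by exact_mod_cast hq0
    rw [mul_one_div, div_le_one (by positivity)]
    linarith)] at hcount
  filter_upwards [hcount] with M hM
  refine le_trans ?_ (hM.trans_eq ?_)
  · norm_cast
    apply Finset.card_le_card
    intro n hn
    rw [Finset.mem_filter] at hn ⊢
    refine ⟨hn.1, ?_⟩
    rw [Set.mem_univ_pi]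
    have h1 : ((⌊(inner ℝ σ (α ^ n * y) : ℝ)⌋ : ℤ) : ZMod q) = g.1 := congrArg Prod.fst hn.2
    have h2 : ((⌊(inner ℝ τ (α ^ n * y) : ℝ)⌋ : ℤ) : ZMod q) = g.2 := congrArg Prod.snd hn.2
    intro i
    fin_cases i
    · simpa [hu, hc] using coe_mem_ball q hq0 _ _ h1
    · simpa [hu, hc] using coe_mem_ball q hq0 _ _ h2
  · have : 2 * (1 / (2 * (q : ℝ))) = 1 / q := by field_simp
    rw [this]
    ring

end Pool.Agent.Hhelper82.Gf
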